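import Pool.Agent.H660.TM.Re
import Pool.Graph.R_pool_sql_team_seeded_3997aac3.Q24.BD.Named
import Pool.Graph.R_pool_sql_team_seeded_3997aac3.Q24.BD.Borel

set_option autoImplicit false

/-! One board against infinitely many boards. -/

namespace Pool.Agent.H660.TM

open Encodable
open Pool.Agent.Helper227
open Pool.Agent.H685R3 (US WinsI WinsII Determined TuringInvariant hist hist_eq_pre)
open Pool.Agent.Q24.BD (Link Loses Computes Has SameDegree star weave board move visit BoardsI
  BoardsII dual strat R progress move_eq tape_R infinite_of_has board_iff tape NamedI)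

/-- A uniform reduction is given by one program. -/
theorem exists_code {Q : (ℕ → Bool) → ℕ × Bool → Prop} (hQ : US Q) :
    ∃ e, ∀ p q : ℕ → Bool, (∀ n b, Q p (n, b) ↔ q n = b) → Computes e p q := by
  obtain ⟨E, hE, -, eE⟩ := hQ
  obtain ⟨c, hc⟩ := Nat.Partrec.Code.exists_code.1 hE.re
  refine ⟨encode c, fun p q h n b => ?_⟩
  rw [Denumerable.ofNat_encode]
  have h1 : ∀ a, (c.eval (encode a)).Dom ↔ E a := by
    intro a
    rw [hc]
    simp [Part.assert]
  refine (h n b).symm.trans ((eE p (n, b)).trans (exists_congr fun k => ?_))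
  exact (h1 _).symm

/-- The inverse of an injective computable map is uniformly computable. -/
theorem inverse_uc {c : ℕ → Bool} {G : (ℕ → Bool) → ℕ → Bool} (hG : UCF c G)
    (hi : Function.Injective G) : ∃ W : (ℕ → Bool) → ℕ × Bool → Prop, UC c W ∧
      ∀ v n b, W (G v) (n, b) ↔ v n = b := by
  obtain ⟨R, h1, h2, h3⟩ := UC.strings hG
  refine ⟨fun x y => ∃ m : ℕ, y.1 < m ∧ ∀ s ∈ strs m, s.getD y.1 false = y.2 ∨
    ∃ z : ℕ × Bool, x z.1 = (!z.2) ∧ R s z, ?_, fun v n b => ?_⟩
  · refine UC.ex (p := fun x (y : ℕ × Bool) (m : ℕ) => y.1 < m ∧ ∀ s ∈ strs m,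
      s.getD y.1 false = y.2 ∨ ∃ z : ℕ × Bool, x z.1 = (!z.2) ∧ R s z)
      (UC.and (UC.of_prim ?_) (UC.all_mem (α := (ℕ × Bool) × ℕ) (p := fun x y (s : List Bool) =>
        s.getD y.1.1 false = y.1.2 ∨ ∃ z : ℕ × Bool, x z.1 = (!z.2) ∧ R s z)
        (f := fun y => strs y.2) (UC.or (UC.of_prim ?_) ?_) (primrec_strs.comp Primrec.snd)))
    · exact Primrec.nat_lt.comp (Primrec.fst.comp Primrec.fst) Primrec.snd
    · exact Primrec.eq.comp ((Primrec.list_getD false).comp Primrec.snd
        (Primrec.fst.comp (Primrec.fst.comp Primrec.fst)))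
        (Primrec.snd.comp (Primrec.fst.comp Primrec.fst))
    · refine UC.ex (α := ((ℕ × Bool) × ℕ) × List Bool) (p := fun x y (z : ℕ × Bool) =>
        x z.1 = (!z.2) ∧ R y.2 z) (UC.and ?_ ?_)
      · exact UC.query.comp (f := fun y : (((ℕ × Bool) × ℕ) × List Bool) × (ℕ × Bool) =>
          (y.2.1, !y.2.2)) ((Primrec.fst.comp Primrec.snd).pair
            (Primrec.not.comp (Primrec.snd.comp Primrec.snd)))
      · exact UC.of_SI (h1.comp (f := fun y : (((ℕ × Bool) × ℕ) × List Bool) × (ℕ × Bool) =>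
          (y.1.2, y.2)) ((Primrec.snd.comp Primrec.fst).pair Primrec.snd))
  · constructor
    · rintro ⟨m, hm, h4⟩
      simp only at hm h4
      rcases h4 (pre v m) (mem_strs.2 (length_pre v m)) with h5 | ⟨z, h5, h6⟩
      · rw [pre_getD _ _ _ _ hm] at h5
        exact h5
      · have h7 : G v z.1 = z.2 := (h3 v z).2 ⟨m, h6⟩
        rw [h7] at h5
        cases h8 : z.2 <;> rw [h8] at h5 <;> cases h5
    · intro hv
      obtain ⟨m, hm⟩ := konig (P := fun s => n < s.length ∧ (s.getD n false = b ∨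
          ∃ z : ℕ × Bool, G v z.1 = (!z.2) ∧ R s z))
        (fun s t ⟨h4, h5⟩ => ⟨by rw [List.length_append]; omega, by
          rcases h5 with h5 | ⟨z, h5, h6⟩
          · left
            rw [List.getD_append _ _ _ _ h4]
            exact h5
          · exact Or.inr ⟨z, h5, h2 _ _ _ h6⟩⟩) fun w => by
          by_cases hw : w n = b
          · exact ⟨n + 1, by simp, Or.inl (by rw [pre_getD _ _ _ _ (Nat.lt_succ_self n)]; exact hw)⟩
          · have h4 : G w ≠ G v := fun h => hw (by rw [hi h]; exact hv)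
            obtain ⟨i, hi'⟩ := Function.ne_iff.1 h4
            obtain ⟨k, hk⟩ := (h3 w (i, G w i)).1 rfl
            refine ⟨max (n + 1) k, by simp, Or.inr ⟨(i, G w i), ?_, ?_⟩⟩
            · simp only
              revert hi'
              cases G w i <;> cases G v i <;> simp
            · obtain ⟨t, ht⟩ := pre_prefix w (le_max_right (n + 1) k)
              rw [← ht]
              exact h2 _ _ _ hk
      refine ⟨max m (n + 1), by simp only; omega, fun s hs => ?_⟩
      have hs' := mem_strs.1 hs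
      have h4 := hm (s.take m) (by rw [List.length_take, hs']; omega)
      rcases h4.2 with h5 | ⟨z, h5, h6⟩
      · left
        have h7 : s = s.take m ++ s.drop m := (List.take_append_drop m s).symm
        rw [h7, List.getD_append _ _ _ _ h4.1]
        exact h5
      · right
        refine ⟨z, h5, ?_⟩
        have h7 := h2 (s.take m) (s.drop m) z h6
        rwa [List.take_append_drop] at h7

theorem dense_of_cover {D : ℕ → Set (ℕ → Bool)} (h : ∀ w, ∃ e, w ∈ D e) :
    ∃ e w k, ∀ w', pre w' k = pre w k → ∀ l, ∃ w'', pre w'' l = pre w' l ∧ w'' ∈ D e := by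
  have hopen : ∀ (x : ℕ → Bool) (k : ℕ), IsOpen {x' : ℕ → Bool | pre x' k = pre x k} := by
    intro x k
    have h3 : {x' : ℕ → Bool | pre x' k = pre x k} = ⋂ i ∈ Finset.range k, {x' | x' i = x i} := by
      ext x'
      simp [pre_eq_iff]
    rw [h3]
    refine isOpen_biInter_finset fun i _ => ?_
    exact (isOpen_discrete ({x i} : Set Bool)).preimage (continuous_apply (A := fun _ : ℕ => Bool) i)
  obtain ⟨e, x, hx⟩ := nonempty_interior_of_iUnion_of_closed (f := fun e => closure (D e))
    (fun e => isClosed_closure) (by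
      refine Set.eq_univ_of_forall fun w => ?_
      obtain ⟨e, he⟩ := h w
      exact Set.mem_iUnion.2 ⟨e, subset_closure he⟩)
  obtain ⟨I, v, hI, hv⟩ := isOpen_pi_iff.1 isOpen_interior x hx
  refine ⟨e, x, I.sup id + 1, fun w' hw' l => ?_⟩
  have h1 : w' ∈ closure (D e) := by
    refine interior_subset (hv fun i hi => ?_)
    have h3 : i < I.sup id + 1 := Nat.lt_succ_of_le (Finset.le_sup (f := id) hi)
    rw [pre_eq_iff.1 hw' i h3]
    exact (hI i hi).2
  obtain ⟨w'', h2, h3⟩ := mem_closure_iff.1 h1 _ (hopen w' l) rfl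
  exact ⟨w'', h2, h3⟩

/-- Prescribing the first bits. -/
def shf (w : ℕ → Bool) (k : ℕ) (v : ℕ → Bool) (n : ℕ) : Bool := if n < k then w n else v (n - k)

theorem ucf_shf (c w : ℕ → Bool) (k : ℕ) : UCF c (shf w k) := by
  have h1 : UC c fun v (x : ℕ × Bool) => (x.1 < k ∧ (pre w k).getD x.1 false = x.2) ∨
      (¬ x.1 < k ∧ v (x.1 - k) = x.2) := by
    have hlt : PrimrecPred fun x : ℕ × Bool => x.1 < k :=
      Primrec.nat_lt.comp Primrec.fst (Primrec.const k)
    refine UC.or (UC.and (UC.of_prim hlt) (UC.of_prim ?_)) (UC.and (UC.of_prim hlt.not) ?_)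
    · exact Primrec.eq.comp ((Primrec.list_getD false).comp (Primrec.const _) Primrec.fst)
        Primrec.snd
    · exact UC.query.comp (f := fun x : ℕ × Bool => (x.1 - k, x.2))
        ((Primrec.nat_sub.comp Primrec.fst (Primrec.const k)).pair Primrec.snd)
  refine h1.of_eq fun v x => ?_
  rw [shf]
  by_cases h : x.1 < k
  · rw [if_pos h, pre_getD _ _ _ _ h]
    simp [h]
  · rw [if_neg h]
    simp [h]

theorem shf_injective (w : ℕ → Bool) (k : ℕ) : Function.Injective (shf w k) := by
  intro v v' h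
  funext n
  have h1 := congrFun h (k + n)
  simpa [shf] using h1

theorem pre_shf (w : ℕ → Bool) (k : ℕ) (v : ℕ → Bool) : pre (shf w k v) k = pre w k :=
  pre_eq_iff.2 fun i hi => by rw [shf, if_pos hi]

/-- Every pointed perfect set has a subset with a uniform parametrization. -/
theorem uniform_param {T : Set (List Bool)} (hT : PPT T) : ∃ G : (ℕ → Bool) → ℕ → Bool,
    UCF (tc T) G ∧ (∀ v, G v ∈ Body T) ∧ ∃ Q : (ℕ → Bool) → ℕ × Bool → Prop, US Q ∧
      ∀ v n b, Q (G v) (n, b) ↔ join (tc T) v n = b := by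
  obtain ⟨E, hE, hE1, hE2⟩ := exists_fam'
  have hAx : ∀ e, Ax (E e) := fun e => ⟨hE.mono e, hE.single e, hE1 e⟩
  obtain ⟨e, w0, k, hd⟩ := dense_of_cover (D := fun e => {w | Mp (E e) (br (tc T) w) (tc T)})
    fun w => (hE2 _ _).1 (hT.tLe w)
  -- thinning
  let p : (ℕ → Bool) → ℕ → Prop := fun w n =>
    ∃ b, tc T n = b ∧ ∃ k', E e (pre (br (tc T) w) k') n b
  have hp : UC (tc T) p := by
    refine UC.ex (p := fun w (n : ℕ) (b : Bool) => tc T n = b ∧
      ∃ k', E e (pre (br (tc T) w) k') n b) (UC.and UC.cquery ?_)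
    exact UC.subst (UC.of_us (hAx e).us) (ucf_br (tc T))
  have hp1 : ∀ w, (∀ n, p w n) ↔ Mp (E e) (br (tc T) w) (tc T) := by
    intro w
    constructor
    · intro h n
      obtain ⟨b, rfl, h1⟩ := h n
      exact h1
    · intro h n
      exact ⟨_, rfl, h n⟩
  have hp' : UC (tc T) fun w => p (shf w0 k w) := UC.subst hp (ucf_shf _ w0 k)
  obtain ⟨h, h1, h2, h3⟩ := thinning hp' fun w l => by
    obtain ⟨w'', h4, h5⟩ := hd (shf w0 k w) (pre_shf w0 k w) (k + l)
    have h6 : shf w0 k (fun n => w'' (k + n)) = w'' := by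
      funext n
      rw [shf]
      split_ifs with hn
      · have h7 := pre_eq_iff.1 h4 n (by omega)
        rw [h7, shf, if_pos hn]
      · rw [show k + (n - k) = n by omega]
    refine ⟨fun n => w'' (k + n), pre_eq_iff.2 fun i hi => ?_, ?_⟩
    · have h7 := pre_eq_iff.1 h4 (k + i) (by omega)
      rw [h7, shf, if_neg (by omega), show k + i - k = i by omega]
    · rw [h6]
      exact (hp1 w'').2 h5
  have hG : UCF (tc T) fun v => br (tc T) (shf w0 k (h v)) :=
    (ucf_br (tc T)).comp ((ucf_shf (tc T) w0 k).comp h1)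
  have hMp : ∀ v, Mp (E e) (br (tc T) (shf w0 k (h v))) (tc T) := fun v => (hp1 _).1 (h3 v)
  obtain ⟨W, ⟨q, hq, eq⟩, hW⟩ := inverse_uc hG
    (hT.toPTree.br_injective.comp ((shf_injective w0 k).comp h2))
  refine ⟨fun v => br (tc T) (shf w0 k (h v)), hG, fun v => hT.toPTree.br_mem _, ?_⟩
  -- recovering the parameter and the argument
  have hm : PrimrecPred fun y : ℕ × Bool => y.1 % 2 = 0 :=
    Primrec.eq.comp (Primrec.nat_mod.comp Primrec.fst (Primrec.const 2)) (Primrec.const 0)
  have hf : Primrec fun y : ℕ × Bool => (y.1 / 2, y.2) :=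
    (Primrec.nat_div.comp Primrec.fst (Primrec.const 2)).pair Primrec.snd
  have hH : US fun B (x : ℕ × Bool) => (x.1 % 2 = 0 ∧ ∃ k', E e (pre B k') (x.1 / 2) x.2) ∨
      (¬ x.1 % 2 = 0 ∧ B (x.1 / 2) = x.2) :=
    US.or (US.and (US.of_prim hm) ((hAx e).us.comp hf))
      (US.and (US.of_prim hm.not) (US.query.comp hf))
  obtain ⟨r, hr, er⟩ := us_subst hq (H := fun B n b => (n % 2 = 0 ∧ ∃ k', E e (pre B k') (n / 2) b)
    ∨ (¬ n % 2 = 0 ∧ B (n / 2) = b)) hH
  have er' : ∀ v a, r (br (tc T) (shf w0 k (h v))) a ↔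
      q (join (tc T) (br (tc T) (shf w0 k (h v)))) a := by
    intro v a
    refine er _ _ (fun n b => ?_) a
    rw [(hAx e).mp_iff (hMp v)]
    unfold join
    by_cases hn : n % 2 = 0
    · rw [if_pos hn]
      simp [hn]
    · rw [if_neg hn]
      simp [hn]
  refine ⟨fun B x => (x.1 % 2 = 0 ∧ ∃ k', E e (pre B k') (x.1 / 2) x.2) ∨
    (¬ x.1 % 2 = 0 ∧ r B (x.1 / 2, x.2)), ?_, fun v n b => ?_⟩
  · exact US.or (US.and (US.of_prim hm) ((hAx e).us.comp hf))
      (US.and (US.of_prim hm.not) (hr.comp hf))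
  · simp only
    rw [(hAx e).mp_iff (hMp v), er', ← eq, hW]
    unfold join
    by_cases hn : n % 2 = 0
    · rw [if_pos hn]
      simp [hn]
    · rw [if_neg hn]
      simp [hn]

/-- The programs of player I which do not lose on any board. -/
def GoodI (A : Set (ℕ → Bool)) : Set (ℕ → Bool) := {p | ∀ q i, Link i p q → ¬ Loses A p q i}

/-- If there is a pointed perfect set of good programs, then player I wins on one board. -/
theorem winsI_of_good {A : Set (ℕ → Bool)} (h : ContainsPP (GoodI A)) : WinsI A := by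
  obtain ⟨T, hT, hTA⟩ := h
  obtain ⟨G, hG, hGT, Q, hQ, hQ'⟩ := uniform_param hT
  obtain ⟨q, hq, eq⟩ := hG
  -- the program which computes `G x` from `x`
  have hH : US fun B (x : ℕ × Bool) => (x.1 % 2 = 0 ∧ B (2 * (x.1 / 2)) = x.2) ∨
      (¬ x.1 % 2 = 0 ∧ B (x.1 / 2) = x.2) := by
    have hm : PrimrecPred fun y : ℕ × Bool => y.1 % 2 = 0 :=
      Primrec.eq.comp (Primrec.nat_mod.comp Primrec.fst (Primrec.const 2)) (Primrec.const 0)
    refine US.or (US.and (US.of_prim hm) (US.query.comp
      (f := fun y : ℕ × Bool => (2 * (y.1 / 2), y.2)) ?_))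
      (US.and (US.of_prim hm.not) (US.query.comp (f := fun y : ℕ × Bool => (y.1 / 2, y.2)) ?_))
    · exact (Primrec.nat_mul.comp (Primrec.const 2) (Primrec.nat_div.comp Primrec.fst
        (Primrec.const 2))).pair Primrec.snd
    · exact (Primrec.nat_div.comp Primrec.fst (Primrec.const 2)).pair Primrec.snd
  obtain ⟨r, hr, er⟩ := us_subst hq (H := fun B n b => (n % 2 = 0 ∧ B (2 * (n / 2)) = b) ∨
    (¬ n % 2 = 0 ∧ B (n / 2) = b)) hH
  obtain ⟨b, hb⟩ := exists_code hr
  have hb' : ∀ x : ℕ → Bool, ev x = tc T → Computes b x (G x) := by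
    intro x hx
    refine hb x (G x) fun n c => ?_
    rw [er x (join (tc T) x) (fun n c => ?_), ← eq]
    rw [← hx]
    unfold join ev
    by_cases hn : n % 2 = 0
    · rw [if_pos hn]
      simp [hn]
    · rw [if_neg hn]
      simp [hn]
  -- the program which computes `x` from `G x`
  obtain ⟨a, ha⟩ := exists_code (Q := fun B x => Q B (2 * x.1 + 1, x.2))
    (hQ.comp (f := fun x : ℕ × Bool => (2 * x.1 + 1, x.2))
      ((Primrec.succ.comp (Primrec.nat_mul.comp (Primrec.const 2) Primrec.fst)).pair Primrec.snd))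
  have ha' : ∀ x : ℕ → Bool, Computes a (G x) x := by
    intro x
    refine ha _ _ fun n c => ?_
    rw [hQ', join_odd]
  refine Pool.Agent.Q24.BD.winsI_of_namedI (D := {∅, Set.univ}) ?_
    ⟨strat (tc T) (fun i => i.unpair.2) 0, fun _ => Nat.pair a b + 1, fun j => ?_, fun v => ?_⟩
  · rintro B (rfl | rfl) f _
    · exact Or.inr ⟨fun _ => false, fun x _ hx => hx.elim⟩
    · exact Or.inl ⟨fun _ => false, fun x _ => trivial⟩
  · by_cases hj : Nat.pair a b + 1 = j
    · right
      exact Set.eq_univ_of_forall fun _ => hj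
    · left
      exact Set.eq_empty_of_forall_notMem fun _ hv => hj hv
  · have hz : ev (R (tc T) (fun i => i.unpair.2) 0 v) = tc T := by
      funext n
      exact Pool.Agent.Q24.BD.mk_z _ _ n
    have hi : Link (Nat.pair a b) (G (R (tc T) (fun i => i.unpair.2) 0 v))
        (R (tc T) (fun i => i.unpair.2) 0 v) := by
      unfold Link
      rw [Nat.unpair_pair]
      exact ⟨ha' _, hb' _ hz⟩
    generalize Nat.pair a b = i at hi
    have hL := hTA (hGT _) _ i hi
    generalize G (R (tc T) (fun i => i.unpair.2) 0 v) = p at hi hL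
    have hall : ∀ m, Has p i m ∧ Has (R (tc T) (fun i => i.unpair.2) 0 v) i m := by
      intro m
      induction m using Nat.strong_induction_on with
      | _ m ih =>
        have h1 : Has p i m := by
          by_contra h2
          exact hL (Or.inl ⟨m, h2, ih⟩)
        exact ⟨h1, progress hi.2 (fun j hj => (ih j hj).2) (Or.inr h1)⟩
    have hinf := infinite_of_has fun m => (hall m).2
    refine ⟨?_, ?_⟩
    · refine hinf.mono fun t ht => ?_
      exact (board_iff _ _ 0 v i t).2 ht
    · have e1 : (fun m => move (strat (tc T) (fun i => i.unpair.2) 0) v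
          (visit (strat (tc T) (fun i => i.unpair.2) 0) v (i + 1) m)) = tape p i := by
        funext m
        exact move_eq (d := 0) hi.2 hinf
      have e2 : (fun m => v (visit (strat (tc T) (fun i => i.unpair.2) 0) v (i + 1) m)) =
          tape (R (tc T) (fun i => i.unpair.2) 0 v) i := by
        funext m
        exact tape_R.symm
      rw [e1, e2]
      by_contra h2
      exact hL (Or.inr ⟨hall, h2⟩)

/-- If a cone contains no good program, then player II can win one of infinitely many boards. -/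
theorem boardsII_of_not_good {A : Set (ℕ → Bool)} (h : MissesCone (GoodI A)) : BoardsII A := by
  obtain ⟨c, hc⟩ := h
  refine Pool.Agent.Q24.BD.boardsII_of_star
    ((ti_winsII (Pool.Agent.Q24.BD.star_invariant A)).2 ⟨c, ?_⟩)
  rintro x hx ⟨p, hp, hp'⟩
  refine hc p (TLe.trans hx hp.2) fun q i hi => hp' q ?_ i hi
  have h1 : TLe q p := Pool.Agent.Q24.BD.tLe_of_computes hi.1
  have h2 : TLe p q := Pool.Agent.Q24.BD.tLe_of_computes hi.2
  exact ⟨TLe.trans h1 hp.1, TLe.trans hp.2 h2⟩

end Pool.Agent.H660.TM
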