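import Pool.Agent.H660.TM.Rt

set_option autoImplicit false

/-! The canonical parametrization of a perfect tree. -/

namespace Pool.Agent.H660.TM

open Encodable
open Pool.Agent.Helper227
open Pool.Agent.H685R3 (US)

/-- The node `s` splits in the tree coded by `t`. -/
def sp (t : ℕ → Bool) (s : List Bool) : Bool := t (encode (s ++ [false])) && t (encode (s ++ [true]))

/-- One step. -/
def bstep (t w : ℕ → Bool) (p : List Bool × ℕ) : List Bool × ℕ :=
  if sp t p.1 = true then (p.1 ++ [w p.2], p.2 + 1) else (p.1 ++ [t (encode (p.1 ++ [true]))], p.2)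

/-- The nodes of the branch with code `w`. -/
def bst (t w : ℕ → Bool) : ℕ → List Bool × ℕ
  | 0 => ([], 0)
  | n + 1 => bstep t w (bst t w n)

/-- The branch with code `w`. -/
def br (t w : ℕ → Bool) (n : ℕ) : Bool := (bst t w (n + 1)).1.getD n false

/-- The number of splitting nodes along `x` below level `n`. -/
def cnt (t x : ℕ → Bool) : ℕ → ℕ
  | 0 => 0
  | n + 1 => if sp t (pre x n) = true then cnt t x n + 1 else cnt t x n

theorem length_bst (t w : ℕ → Bool) (n : ℕ) : (bst t w n).1.length = n := by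
  induction n with
  | zero => rfl
  | succ n ih =>
    rw [bst, bstep]
    split_ifs <;> simp [ih]

theorem pre_br (t w : ℕ → Bool) (n : ℕ) : pre (br t w) n = (bst t w n).1 := by
  induction n with
  | zero => rfl
  | succ n ih =>
    rw [pre_succ, ih, br, bst, bstep]
    have h1 := length_bst t w n
    split_ifs
    · congr 1
      simp only [List.cons.injEq, and_true]
      rw [List.getD_append_right _ _ _ _ (by omega), h1]
      simp
    · congr 1
      simp only [List.cons.injEq, and_true]
      rw [List.getD_append_right _ _ _ _ (by omega), h1]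
      simp

theorem bst_eq (t w : ℕ → Bool) (n : ℕ) : bst t w n = (pre (br t w) n, cnt t (br t w) n) := by
  refine Prod.ext (pre_br t w n).symm ?_
  induction n with
  | zero => rfl
  | succ n ih =>
    have ih' : (bst t w n).2 = cnt t (br t w) n := ih
    change (bstep t w (bst t w n)).2 = cnt t (br t w) (n + 1)
    rw [bstep, cnt, pre_br]
    split_ifs
    · simp only [ih']
    · simp only [ih']

theorem br_apply (t w : ℕ → Bool) (n : ℕ) : br t w n =
    if sp t (pre (br t w) n) = true then w (cnt t (br t w) n)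
    else t (encode (pre (br t w) n ++ [true])) := by
  have h1 : pre (br t w) (n + 1) = (bstep t w (pre (br t w) n, cnt t (br t w) n)).1 := by
    rw [pre_br, bst, bst_eq]
  rw [pre_succ, bstep] at h1
  split_ifs at h1 ⊢
  · simpa using h1
  · simpa using h1

theorem cnt_congr {t x y : ℕ → Bool} {n : ℕ} (h : pre x n = pre y n) : cnt t x n = cnt t y n := by
  induction n with
  | zero => rfl
  | succ n ih =>
    have h1 := pre_eq_mono (Nat.le_succ n) h
    rw [cnt, cnt, ih h1, h1]

theorem cnt_le (t x : ℕ → Bool) (n : ℕ) : cnt t x n ≤ n := by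
  induction n with
  | zero => exact le_rfl
  | succ n ih =>
    rw [cnt]
    split_ifs <;> omega

theorem br_eq_of {t w x : ℕ → Bool} (h : ∀ n, x n =
    if sp t (pre x n) = true then w (cnt t x n) else t (encode (pre x n ++ [true]))) :
    br t w = x := by
  have h1 : ∀ n, pre (br t w) n = pre x n := by
    intro n
    induction n with
    | zero => rfl
    | succ n ih =>
      rw [pre_succ, pre_succ, ih, br_apply, h n, ih, cnt_congr ih]
  funext n
  exact pre_eq_iff.1 (h1 (n + 1)) n (Nat.lt_succ_self n)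

/-- The branch depends on the code in a Lipschitz way. -/
theorem br_lipschitz {t w w' : ℕ → Bool} {n : ℕ} (h : pre w n = pre w' n) :
    pre (br t w) n = pre (br t w') n := by
  have h1 : ∀ k ≤ n, pre (br t w) k = pre (br t w') k := by
    intro k
    induction k with
    | zero => intro _; rfl
    | succ k ih =>
      intro hk
      have h2 := ih (by omega)
      rw [pre_succ, pre_succ, h2, br_apply, br_apply t w', h2, cnt_congr h2]
      have h3 : w (cnt t (br t w') k) = w' (cnt t (br t w') k) :=
        pre_eq_iff.1 h _ (lt_of_le_of_lt (cnt_le _ _ _) hk)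
      rw [h3]
  exact h1 n le_rfl

/-- The result of a step in terms of the answers of the oracles. -/
def bres (p : List Bool × ℕ) (z : Bool × Bool × Bool) : List Bool × ℕ :=
  if (z.1 && z.2.1) = true then (p.1 ++ [z.2.2], p.2 + 1) else (p.1 ++ [z.2.1], p.2)

theorem primrec_bres : Primrec₂ bres := by
  unfold bres
  refine Primrec.ite ?_ ?_ ?_
  · exact Primrec.eq.comp (Primrec.and.comp (Primrec.fst.comp Primrec.snd)
      (Primrec.fst.comp (Primrec.snd.comp Primrec.snd))) (Primrec.const true)
  · refine Primrec.pair (Primrec.list_append.comp (Primrec.fst.comp Primrec.fst)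
      (Primrec.list_cons.comp ?_ (Primrec.const []))) (Primrec.succ.comp
        (Primrec.snd.comp Primrec.fst))
    exact Primrec.snd.comp (Primrec.snd.comp Primrec.snd)
  · refine Primrec.pair (Primrec.list_append.comp (Primrec.fst.comp Primrec.fst)
      (Primrec.list_cons.comp ?_ (Primrec.const []))) (Primrec.snd.comp Primrec.fst)
    exact Primrec.fst.comp (Primrec.snd.comp Primrec.snd)

theorem uc_child (t : ℕ → Bool) (b : Bool) :
    UC t fun _ (x : List Bool × Bool) => t (encode (x.1 ++ [b])) = x.2 :=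
  UC.cquery.comp (f := fun x : List Bool × Bool => (encode (x.1 ++ [b]), x.2))
    ((Primrec.encode.comp (Primrec.list_append.comp Primrec.fst (Primrec.const [b]))).pair
      Primrec.snd)

theorem ucf_br (t : ℕ → Bool) : UCF t (br t) := by
  have hS : UC t fun w (x : (ℕ × (List Bool × ℕ)) × (List Bool × ℕ)) =>
      bstep t w x.1.2 = x.2 := by
    have h1 : UC t fun w (x : (ℕ × (List Bool × ℕ)) × (List Bool × ℕ)) =>
        ∃ z : Bool × Bool × Bool, (t (encode (x.1.2.1 ++ [false])) = z.1 ∧
          t (encode (x.1.2.1 ++ [true])) = z.2.1 ∧ w x.1.2.2 = z.2.2) ∧ bres x.1.2 z = x.2 := by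
      refine UC.ex (p := fun w (x : (ℕ × (List Bool × ℕ)) × (List Bool × ℕ))
        (z : Bool × Bool × Bool) => (t (encode (x.1.2.1 ++ [false])) = z.1 ∧
          t (encode (x.1.2.1 ++ [true])) = z.2.1 ∧ w x.1.2.2 = z.2.2) ∧ bres x.1.2 z = x.2)
        (UC.and (UC.and ?_ (UC.and ?_ ?_)) (UC.of_prim ?_))
      · exact (uc_child t false).comp (f := fun y : ((ℕ × (List Bool × ℕ)) × (List Bool × ℕ)) ×
          (Bool × Bool × Bool) => (y.1.1.2.1, y.2.1))
          ((Primrec.fst.comp (Primrec.snd.comp (Primrec.fst.comp Primrec.fst))).pair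
            (Primrec.fst.comp Primrec.snd))
      · exact (uc_child t true).comp (f := fun y : ((ℕ × (List Bool × ℕ)) × (List Bool × ℕ)) ×
          (Bool × Bool × Bool) => (y.1.1.2.1, y.2.2.1))
          ((Primrec.fst.comp (Primrec.snd.comp (Primrec.fst.comp Primrec.fst))).pair
            (Primrec.fst.comp (Primrec.snd.comp Primrec.snd)))
      · exact UC.query.comp (f := fun y : ((ℕ × (List Bool × ℕ)) × (List Bool × ℕ)) ×
          (Bool × Bool × Bool) => (y.1.1.2.2, y.2.2.2))
          ((Primrec.snd.comp (Primrec.snd.comp (Primrec.fst.comp Primrec.fst))).pair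
            (Primrec.snd.comp (Primrec.snd.comp Primrec.snd)))
      · exact Primrec.eq.comp (primrec_bres.comp
          (Primrec.snd.comp (Primrec.fst.comp Primrec.fst)) Primrec.snd)
          (Primrec.snd.comp Primrec.fst)
    refine h1.of_eq fun w x => ?_
    constructor
    · rintro ⟨z, ⟨h2, h3, h4⟩, h5⟩
      rw [← h5, bres, bstep, sp, h2, h3, h4]
    · intro h2
      refine ⟨(t (encode (x.1.2.1 ++ [false])), t (encode (x.1.2.1 ++ [true])), w x.1.2.2),
        ⟨rfl, rfl, rfl⟩, ?_⟩
      rw [← h2, bres, bstep, sp]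
  have h1 := UC.iterate (st := fun w => bst t w) (s0 := ([], 0))
    (S := fun w _ p p' => bstep t w p = p') (fun _ => rfl) hS (fun w n y => Iff.rfl)
  have h2 : UC t fun w (x : ℕ × Bool) => ∃ p : List Bool × ℕ, bst t w (x.1 + 1) = p ∧
      p.1.getD x.1 false = x.2 := by
    refine UC.ex (p := fun w (x : ℕ × Bool) (p : List Bool × ℕ) => bst t w (x.1 + 1) = p ∧
      p.1.getD x.1 false = x.2) (UC.and ?_ (UC.of_prim ?_))
    · exact h1.comp (f := fun y : (ℕ × Bool) × (List Bool × ℕ) => (y.1.1 + 1, y.2))
        ((Primrec.succ.comp (Primrec.fst.comp Primrec.fst)).pair Primrec.snd)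
    · exact Primrec.eq.comp ((Primrec.list_getD false).comp (Primrec.fst.comp Primrec.snd)
        (Primrec.fst.comp Primrec.fst)) (Primrec.snd.comp Primrec.fst)
  refine h2.of_eq fun w x => ?_
  constructor
  · rintro ⟨p, rfl, h3⟩
    exact h3
  · intro h3
    exact ⟨_, rfl, h3⟩

/-- The states along `x`. -/
def cst (t x : ℕ → Bool) (n : ℕ) : List Bool × ℕ := (pre x n, cnt t x n)

/-- One step along `x`. -/
def cres (p : List Bool × ℕ) (z : Bool × Bool × Bool) : List Bool × ℕ :=
  (p.1 ++ [z.2.2], if (z.1 && z.2.1) = true then p.2 + 1 else p.2)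

theorem primrec_cres : Primrec₂ cres := by
  unfold cres
  refine Primrec.pair (Primrec.list_append.comp (Primrec.fst.comp Primrec.fst)
      (Primrec.list_cons.comp ?_ (Primrec.const []))) (Primrec.ite ?_ ?_ ?_)
  · exact Primrec.snd.comp (Primrec.snd.comp Primrec.snd)
  · exact Primrec.eq.comp (Primrec.and.comp (Primrec.fst.comp Primrec.snd)
      (Primrec.fst.comp (Primrec.snd.comp Primrec.snd))) (Primrec.const true)
  · exact Primrec.succ.comp (Primrec.snd.comp Primrec.fst)
  · exact Primrec.snd.comp Primrec.fst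

theorem uc_cst (t : ℕ → Bool) : UC t fun x (y : ℕ × (List Bool × ℕ)) => cst t x y.1 = y.2 := by
  refine UC.iterate (st := fun x => cst t x) (s0 := ([], 0)) (S := fun x n p p' =>
    ∃ z : Bool × Bool × Bool, (t (encode (p.1 ++ [false])) = z.1 ∧
      t (encode (p.1 ++ [true])) = z.2.1 ∧ x n = z.2.2) ∧ cres p z = p') (fun _ => rfl) ?_ ?_
  · refine UC.ex (α := (ℕ × (List Bool × ℕ)) × (List Bool × ℕ)) (p := fun x y
      (z : Bool × Bool × Bool) => (t (encode (y.1.2.1 ++ [false])) = z.1 ∧
      t (encode (y.1.2.1 ++ [true])) = z.2.1 ∧ x y.1.1 = z.2.2) ∧ cres y.1.2 z = y.2)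
        (UC.and (UC.and ?_ (UC.and ?_ ?_)) (UC.of_prim ?_))
    · exact (uc_child t false).comp (f := fun y : ((ℕ × (List Bool × ℕ)) × (List Bool × ℕ)) ×
        (Bool × Bool × Bool) => (y.1.1.2.1, y.2.1))
        ((Primrec.fst.comp (Primrec.snd.comp (Primrec.fst.comp Primrec.fst))).pair
          (Primrec.fst.comp Primrec.snd))
    · exact (uc_child t true).comp (f := fun y : ((ℕ × (List Bool × ℕ)) × (List Bool × ℕ)) ×
        (Bool × Bool × Bool) => (y.1.1.2.1, y.2.2.1))
        ((Primrec.fst.comp (Primrec.snd.comp (Primrec.fst.comp Primrec.fst))).pair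
          (Primrec.fst.comp (Primrec.snd.comp Primrec.snd)))
    · exact UC.query.comp (f := fun y : ((ℕ × (List Bool × ℕ)) × (List Bool × ℕ)) ×
        (Bool × Bool × Bool) => (y.1.1.1, y.2.2.2))
        ((Primrec.fst.comp (Primrec.fst.comp Primrec.fst)).pair
          (Primrec.snd.comp (Primrec.snd.comp Primrec.snd)))
    · exact Primrec.eq.comp (primrec_cres.comp
        (Primrec.snd.comp (Primrec.fst.comp Primrec.fst)) Primrec.snd)
        (Primrec.snd.comp Primrec.fst)
  · intro x n p
    have h1 : cst t x (n + 1) = cres (cst t x n) (t (encode (pre x n ++ [false])),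
        t (encode (pre x n ++ [true])), x n) := by
      simp only [cst, cres, pre_succ, cnt, sp]
      rfl
    constructor
    · intro h
      exact ⟨_, ⟨rfl, rfl, rfl⟩, h ▸ h1.symm⟩
    · rintro ⟨⟨z1, z2, z3⟩, ⟨h2, h3, h4⟩, h5⟩
      rw [h1, ← h5]
      simp only at h2 h3 h4
      rw [← h2, ← h3, ← h4]
      rfl

/-- The relation between the branch `x` and its code. -/
def Wr (t x : ℕ → Bool) (k : ℕ) (b : Bool) : Prop :=
  ∃ n, cnt t x n = k ∧ sp t (pre x n) = true ∧ x n = b

theorem uc_wr (t : ℕ → Bool) : UC t fun x (y : ℕ × Bool) => Wr t x y.1 y.2 := by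
  have h1 : UC t fun x (y : ℕ × Bool) => ∃ z : ℕ × List Bool, cst t x z.1 = (z.2, y.1) ∧
      (t (encode (z.2 ++ [false])) = true ∧ t (encode (z.2 ++ [true])) = true) ∧ x z.1 = y.2 := by
    refine UC.ex (p := fun x (y : ℕ × Bool) (z : ℕ × List Bool) => cst t x z.1 = (z.2, y.1) ∧
      (t (encode (z.2 ++ [false])) = true ∧ t (encode (z.2 ++ [true])) = true) ∧ x z.1 = y.2)
      (UC.and ?_ (UC.and (UC.and ?_ ?_) ?_))
    · exact (uc_cst t).comp (f := fun y : (ℕ × Bool) × (ℕ × List Bool) =>
        (y.2.1, (y.2.2, y.1.1))) ((Primrec.fst.comp Primrec.snd).pair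
          ((Primrec.snd.comp Primrec.snd).pair (Primrec.fst.comp Primrec.fst)))
    · exact (uc_child t false).comp (f := fun y : (ℕ × Bool) × (ℕ × List Bool) =>
        (y.2.2, true)) ((Primrec.snd.comp Primrec.snd).pair (Primrec.const true))
    · exact (uc_child t true).comp (f := fun y : (ℕ × Bool) × (ℕ × List Bool) =>
        (y.2.2, true)) ((Primrec.snd.comp Primrec.snd).pair (Primrec.const true))
    · exact UC.query.comp (f := fun y : (ℕ × Bool) × (ℕ × List Bool) =>
        (y.2.1, y.1.2)) ((Primrec.fst.comp Primrec.snd).pair (Primrec.snd.comp Primrec.fst))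
  refine h1.of_eq fun x y => ?_
  constructor
  · rintro ⟨⟨n, s⟩, h2, ⟨h3, h4⟩, h5⟩
    simp only [cst, Prod.mk.injEq] at h2 h3 h4 h5
    obtain ⟨rfl, h6⟩ := h2
    exact ⟨n, h6, by rw [sp, h3, h4]; rfl, h5⟩
  · rintro ⟨n, h2, h3, h4⟩
    rw [sp, Bool.and_eq_true] at h3
    exact ⟨(n, pre x n), by simp only [cst, h2], h3, h4⟩

variable {T : Set (List Bool)}

theorem PTree.br_mem (hT : PTree T) (w : ℕ → Bool) : br (tc T) w ∈ Body T := by
  intro n
  induction n with
  | zero => exact hT.nil
  | succ n ih =>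
    rw [pre_succ, br_apply]
    split_ifs with h
    · rw [sp, Bool.and_eq_true, tc_encode, tc_encode] at h
      cases w (cnt (tc T) (br (tc T) w) n)
      · exact h.1
      · exact h.2
    · cases h1 : tc T (encode (pre (br (tc T) w) n ++ [true]))
      · rw [tc_encode_false] at h1
        obtain ⟨t, h2, h3⟩ := hT.split _ ih
        cases t with
        | nil => rwa [List.append_nil] at h2
        | cons b t =>
          have h4 : pre (br (tc T) w) n ++ [b] ∈ T := by
            refine hT.pref _ (t ++ [false]) ?_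
            simpa using h2
          cases b
          · exact h4
          · exact absurd h4 h1
      · rwa [tc_encode] at h1

theorem eq_of_not_sp {x : ℕ → Bool} (hx : x ∈ Body T) {n : ℕ}
    (h : ¬ sp (tc T) (pre x n) = true) : x n = tc T (encode (pre x n ++ [true])) := by
  have h1 := hx (n + 1)
  rw [pre_succ] at h1
  rw [sp, Bool.and_eq_true, tc_encode, tc_encode] at h
  cases hb : x n
  · rw [hb] at h1
    symm
    rw [tc_encode_false]
    exact fun h2 => h ⟨h1, h2⟩
  · rw [hb] at h1
    exact (tc_encode.2 h1).symm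

theorem PTree.exists_sp (hT : PTree T) {x : ℕ → Bool} (hx : x ∈ Body T) (n : ℕ) :
    ∃ m ≥ n, sp (tc T) (pre x m) = true := by
  obtain ⟨t, h1, h2⟩ := hT.split _ (hx n)
  by_cases h : pre x (n + t.length) = pre x n ++ t
  · refine ⟨n + t.length, by omega, ?_⟩
    rw [h, sp, Bool.and_eq_true, tc_encode, tc_encode]
    exact ⟨h1, h2⟩
  · -- the first difference
    have h3 : pre x (n + t.length) ≠ pre (ext (pre x n ++ t)) (n + t.length) := by
      have h4 := pre_ext (pre x n ++ t)
      rw [List.length_append, length_pre] at h4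
      rwa [h4]
    have h5 : ∃ i < n + t.length, x i ≠ ext (pre x n ++ t) i := by
      by_contra hc
      push Not at hc
      exact h3 (pre_eq_iff.2 hc)
    have h6 : x ≠ ext (pre x n ++ t) := by
      obtain ⟨i, -, hi⟩ := h5
      exact fun h7 => hi (congrFun h7 i)
    obtain ⟨m, h7, h8⟩ := first_diff h6
    have hm : m < n + t.length := by
      obtain ⟨i, hi, hi'⟩ := h5
      by_contra hc
      exact hi' (pre_eq_iff.1 h7 i (by omega))
    have hn : n ≤ m := by
      by_contra hc
      refine h8 ?_
      simp only [ext]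
      rw [List.getD_append _ _ _ _ (by rw [length_pre]; omega), pre_getD _ _ _ _ (by omega)]
    refine ⟨m, hn, ?_⟩
    have h9 := hx (m + 1)
    rw [pre_succ] at h9
    have h10 : pre x m ++ [ext (pre x n ++ t) m] ∈ T := by
      rw [h7, ← pre_succ]
      have h11 := pre_ext (pre x n ++ t)
      rw [List.length_append, length_pre] at h11
      have h12 : pre (ext (pre x n ++ t)) (m + 1) <+: pre x n ++ t := by
        conv_rhs => rw [← h11]
        exact pre_prefix _ (by omega)
      obtain ⟨r, hr⟩ := h12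
      refine hT.pref _ (r ++ [false]) ?_
      rw [← List.append_assoc, hr]
      exact h1
    rw [sp, Bool.and_eq_true, tc_encode, tc_encode]
    revert h8 h9 h10
    cases x m <;> cases ext (pre x n ++ t) m <;> simp
    · exact fun h h' => ⟨h, h'⟩
    · exact fun h h' => ⟨h', h⟩

theorem cnt_mono (t x : ℕ → Bool) {m n : ℕ} (h : m ≤ n) : cnt t x m ≤ cnt t x n := by
  induction n, h using Nat.le_induction with
  | base => exact le_rfl
  | succ n _ ih =>
    rw [cnt]
    split_ifs <;> omega

theorem cnt_inj {t x : ℕ → Bool} {m n : ℕ} (h : cnt t x m = cnt t x n)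
    (hm : sp t (pre x m) = true) (hn : sp t (pre x n) = true) : m = n := by
  by_contra hne
  rcases Nat.lt_or_gt_of_ne hne with h1 | h1
  · have h2 := cnt_mono t x (m := m + 1) (n := n) h1
    rw [cnt, if_pos hm] at h2
    omega
  · have h2 := cnt_mono t x (m := n + 1) (n := m) h1
    rw [cnt, if_pos hn] at h2
    omega

theorem PTree.exists_cnt (hT : PTree T) {x : ℕ → Bool} (hx : x ∈ Body T) (k : ℕ) :
    ∃ n, cnt (tc T) x n = k ∧ sp (tc T) (pre x n) = true := by
  have next : ∀ n, ∃ m ≥ n, cnt (tc T) x m = cnt (tc T) x n ∧ sp (tc T) (pre x m) = true := by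
    intro n
    classical
    have h1 := hT.exists_sp hx n
    refine ⟨Nat.find h1, (Nat.find_spec h1).1, ?_, (Nat.find_spec h1).2⟩
    have h2 : ∀ m, n ≤ m → m ≤ Nat.find h1 → cnt (tc T) x m = cnt (tc T) x n := by
      intro m hm
      induction m, hm using Nat.le_induction with
      | base => intro _; rfl
      | succ m hm ih =>
        intro h3
        have h4 : ¬ sp (tc T) (pre x m) = true := fun h5 =>
          Nat.find_min h1 (m := m) (by omega) ⟨hm, h5⟩
        rw [cnt, if_neg h4]
        exact ih (by omega)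
    exact h2 _ (Nat.find_spec h1).1 le_rfl
  induction k with
  | zero =>
    obtain ⟨m, -, h1, h2⟩ := next 0
    exact ⟨m, h1, h2⟩
  | succ k ih =>
    obtain ⟨n, h1, h2⟩ := ih
    obtain ⟨m, -, h3, h4⟩ := next (n + 1)
    refine ⟨m, ?_, h4⟩
    rw [h3, cnt, if_pos h2, h1]

/-- All branches have codes. -/
theorem PTree.surj (hT : PTree T) {x : ℕ → Bool} (hx : x ∈ Body T) : ∃ w, br (tc T) w = x := by
  choose N hN hN' using hT.exists_cnt hx
  refine ⟨fun k => x (N k), br_eq_of fun n => ?_⟩
  split_ifs with h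
  · congr 1
    exact cnt_inj (hN _).symm h (hN' _)
  · exact eq_of_not_sp hx h

theorem PTree.wr (hT : PTree T) (w : ℕ → Bool) (k : ℕ) (b : Bool) :
    Wr (tc T) (br (tc T) w) k b ↔ w k = b := by
  constructor
  · rintro ⟨n, h1, h2, h3⟩
    rw [br_apply, if_pos h2, h1] at h3
    exact h3
  · intro h
    obtain ⟨n, h1, h2⟩ := hT.exists_cnt (hT.br_mem w) k
    refine ⟨n, h1, h2, ?_⟩
    rw [br_apply, if_pos h2, h1, h]

theorem PTree.br_injective (hT : PTree T) : Function.Injective (br (tc T)) := by
  intro w w' h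
  funext k
  rw [← hT.wr w k (w' k), h, hT.wr]

theorem PTree.tLe_code (hT : PTree T) {w B : ℕ → Bool} (h : TLe (tc T) B)
    (h' : TLe (br (tc T) w) B) : TLe w B := by
  rw [tLe_iff_SI]
  exact ((uc_wr (tc T)).toSI h h').of_eq fun y => hT.wr w y.1 y.2

/-- The inverse is continuous. -/
theorem PTree.inv_cont (hT : PTree T) (w : ℕ → Bool) (m : ℕ) :
    ∃ n, ∀ w', pre (br (tc T) w') n = pre (br (tc T) w) n → pre w' m = pre w m := by
  choose N hN hN' using hT.exists_cnt (hT.br_mem w)
  refine ⟨(Finset.range m).sup N + 1, fun w' h => pre_eq_iff.2 fun k hk => ?_⟩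
  have h1 : N k + 1 ≤ (Finset.range m).sup N + 1 :=
    Nat.succ_le_succ (Finset.le_sup (f := N) (Finset.mem_range.2 hk))
  have h2 := pre_eq_mono h1 h
  have h3 := pre_eq_mono (Nat.le_succ (N k)) h2
  have h4 := pre_eq_iff.1 h2 (N k) (Nat.lt_succ_self _)
  rw [br_apply, br_apply (tc T) w, h3, cnt_congr h3, if_pos (hN' k), if_pos (hN' k), hN k] at h4
  exact h4

theorem PPT.tLe (hT : PPT T) (w : ℕ → Bool) : TLe (tc T) (br (tc T) w) :=
  hT.pointed _ (hT.br_mem w)

theorem PPT.tLe_code (hT : PPT T) (w : ℕ → Bool) : TLe w (br (tc T) w) :=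
  hT.toPTree.tLe_code (hT.tLe w) (TLe.refl _)

end Pool.Agent.H660.TM
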