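import Pool.Agent.H660.TM.Bd

set_option autoImplicit false

/-! Classes of sets of reals closed under Borel operations. -/

namespace Pool.Agent.H660.TM

open Encodable
open Pool.Agent.Helper227
open Pool.Agent.H685R3 (US WinsI WinsII Determined TuringInvariant hist hist_eq_pre)
open Pool.Agent.Q24.BD (Link Loses Computes Has SameDegree star weave board move visit BoardsI
  BoardsII dual code exists_echo age_visit tLe_move weave_even weave_odd good out computes_iff
  tLe_of_computes computes_of_tLe Deg Stall Ended tape tape')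

/-! ### Exchanging the players -/

theorem count_later {P : ℕ → Prop} [DecidablePred P] [DecidablePred fun t => P t ∧ ∃ t' < t, P t']
    (n : ℕ) : Nat.count (fun t => P t ∧ ∃ t' < t, P t') n = Nat.count P n - 1 := by
  induction n with
  | zero => simp
  | succ n ih =>
    rw [Nat.count_succ, Nat.count_succ, ih]
    have h1 : (∃ t' < n, P t') ↔ 0 < Nat.count P n := by
      rw [Nat.count_eq_card_filter_range, Finset.card_pos]
      constructor
      · rintro ⟨t, h2, h3⟩
        exact ⟨t, by simp [h2, h3]⟩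
      · rintro ⟨t, ht⟩
        simp only [Finset.mem_filter, Finset.mem_range] at ht
        exact ⟨t, ht.1, ht.2⟩
    by_cases h2 : P n
    · by_cases h3 : 0 < Nat.count P n
      · rw [if_pos ⟨h2, h1.2 h3⟩, if_pos h2]
        clear ih h1
        generalize Nat.count P n = a at h3
        omega
      · rw [if_neg fun h4 => h3 (h1.1 h4.2), if_pos h2]
        clear ih h1
        generalize Nat.count P n = a at h3
        omega
    · rw [if_neg fun h4 => h2 h4.1, if_neg h2]
      rfl

theorem nth_later {P : ℕ → Prop} (h : {t | P t}.Infinite) (m : ℕ) :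
    Nat.nth (fun t => P t ∧ ∃ t' < t, P t') m = Nat.nth P (m + 1) := by
  classical
  have h1 : P (Nat.nth P (m + 1)) := Nat.nth_mem_of_infinite h _
  have h2 : P (Nat.nth P 0) := Nat.nth_mem_of_infinite h _
  have h3 : Nat.nth P 0 < Nat.nth P (m + 1) := Nat.nth_strictMono h (Nat.succ_pos m)
  have h4 : Nat.count (fun t => P t ∧ ∃ t' < t, P t') (Nat.nth P (m + 1)) = m := by
    rw [count_later, Nat.count_nth_of_infinite h]
    omega
  conv_lhs => rw [← h4]
  exact Nat.nth_count (p := fun t => P t ∧ ∃ t' < t, P t') ⟨h1, _, h3, h2⟩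

theorem infinite_later {P : ℕ → Prop} (h : {t | P t}.Infinite) :
    {t | P t ∧ ∃ t' < t, P t'}.Infinite := by
  have h1 : {t | P t} ⊆ {t | P t ∧ ∃ t' < t, P t'} ∪ {Nat.nth P 0} := by
    intro t ht
    by_cases h2 : ∃ t' < t, P t'
    · exact Or.inl ⟨ht, h2⟩
    · right
      classical
      have h3 : Nat.count P t = 0 := by
        by_contra h4
        refine h2 ?_
        have h5 : 0 < Nat.count P t := Nat.pos_of_ne_zero h4
        rw [Nat.count_eq_card_filter_range, Finset.card_pos] at h5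
        obtain ⟨t', ht'⟩ := h5
        simp only [Finset.mem_filter, Finset.mem_range] at ht'
        exact ⟨t', ht'.1, ht'.2⟩
      have h4 := Nat.nth_count (p := P) ht
      rw [h3] at h4
      exact h4.symm
  by_contra hc
  rw [Set.not_infinite] at hc
  exact h ((hc.union (Set.finite_singleton _)).subset h1)

theorem boardsI_of_dual {A : Set (ℕ → Bool)} (h : BoardsII (dual A)) : BoardsI A := by
  classical
  obtain ⟨s, hs⟩ := h
  let s' : List Bool → ℕ × Bool := fun L =>
    if ∃ t < L.length, (s (L.take t)).1 = (s L).1 then ((s L).1 + 1, (s L).2) else (0, false)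
  have hb : ∀ v t, s' (hist v t) = if ∃ t' < t, board s v t' = board s v t then
      (board s v t + 1, move s v t) else (0, false) := by
    intro v t
    have h1 : (∃ t' < (hist v t).length, (s ((hist v t).take t')).1 = (s (hist v t)).1) ↔
        ∃ t' < t, board s v t' = board s v t := by
      rw [hist_eq_pre, length_pre]
      refine exists_congr fun t' => and_congr_right fun ht' => ?_
      rw [take_pre _ _ _ ht'.le]
      rfl
    change (if _ then _ else _) = _
    simp only [h1]
    rfl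
  refine ⟨s', fun v => ?_⟩
  obtain ⟨k, hinf, hk⟩ := hs v
  have h1 : ∀ t, board s' v t = k + 1 ↔ board s v t = k ∧ ∃ t' < t, board s v t' = k := by
    intro t
    rw [board, hb]
    split_ifs with h2
    · constructor
      · intro h3
        have h4 : board s v t = k := by simpa using h3
        rw [h4] at h2
        exact ⟨h4, h2⟩
      · rintro ⟨h3, -⟩
        simp [h3]
    · constructor
      · intro h3
        cases h3
      · rintro ⟨h3, h4⟩
        rw [← h3] at h4
        exact absurd h4 h2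
  have hset : {t | board s' v t = k + 1} = {t | board s v t = k ∧ ∃ t' < t, board s v t' = k} :=
    Set.ext h1
  have hinf' : {t | board s' v t = k + 1}.Infinite := by
    rw [hset]
    exact infinite_later hinf
  have hvis : ∀ m, visit s' v (k + 1) m = visit s v k (m + 1) := by
    intro m
    unfold visit
    have h2 : (fun t => board s' v t = k + 1) =
        fun t => board s v t = k ∧ ∃ t' < t, board s v t' = k := funext fun t => propext (h1 t)
    rw [h2]
    exact nth_later hinf m
  have hmv : ∀ m, move s' v (visit s' v (k + 1) m) = move s v (visit s v k (m + 1)) := by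
    intro m
    rw [hvis]
    have h2 : board s' v (visit s v k (m + 1)) = k + 1 := by
      rw [← hvis]
      exact Nat.nth_mem_of_infinite hinf' m
    rw [h1] at h2
    rw [move, hb, if_pos]
    rw [h2.1]
    exact h2.2
  refine ⟨k + 1, hinf', ?_⟩
  have e1 : (fun m => move s' v (visit s' v (k + 1) m)) =
      fun m => move s v (visit s v k (m + 1)) := funext hmv
  have e2 : (fun m => v (visit s' v (k + 1) m)) = fun m => v (visit s v k (m + 1)) :=
    funext fun m => by rw [hvis]
  rw [e1, e2]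
  have h2 := Pool.Agent.Q24.BD.weave_succ (fun m => v (visit s v k m))
    (fun m => move s v (visit s v k (m + 1)))
  by_contra h3
  refine hk ?_
  change ¬ (fun n => weave _ _ (n + 1)) ∈ A
  rw [h2]
  exact h3

theorem winsII_of_good {A : Set (ℕ → Bool)} (h : ContainsPP (GoodI (dual A))) : WinsII A :=
  Pool.Agent.Q24.BD.winsI_dual.1 (winsI_of_good h)

theorem boardsI_of_not_good {A : Set (ℕ → Bool)} (h : MissesCone (GoodI (dual A))) : BoardsI A :=
  boardsI_of_dual (boardsII_of_not_good h)

/-! ### The special games -/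

theorem ev_weave (a b : ℕ → Bool) : ev (weave a b) = a := funext fun n => weave_even a b n

theorem od_weave (a b : ℕ → Bool) : od (weave a b) = b := funext fun n => weave_odd a b n

theorem boardsII_marI {A : Set (ℕ → Bool)} : BoardsII (Plays (MarI A)) ↔ MissesCone A := by
  constructor
  · rintro ⟨s, hs⟩
    refine ⟨code s, fun x hx hA => ?_⟩
    obtain ⟨v, hv⟩ := exists_echo s x
    obtain ⟨k, hinf, hk⟩ := hs v
    have e1 : (fun m => v (visit s v k m)) = x := by
      funext m
      rw [hv, age_visit hinf]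
    rw [e1] at hk
    refine hk ?_
    change MarI A (ev _) (od _)
    rw [ev_weave, od_weave]
    exact ⟨hA, tLe_move hx hv hinf 1⟩
  · intro h
    exact Pool.Agent.Q24.BD.boardsII_of_winsII ((marI_spec A).2.2.2 h)

theorem boardsI_marII {A : Set (ℕ → Bool)} : BoardsI (Plays (MarII A)) ↔ MissesCone A := by
  constructor
  · rintro ⟨s, hs⟩
    refine ⟨code s, fun x hx hA => ?_⟩
    obtain ⟨v, hv⟩ := exists_echo s x
    obtain ⟨k, hinf, hk⟩ := hs v
    have e1 : (fun m => v (visit s v k m)) = x := by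
      funext m
      rw [hv, age_visit hinf]
    rw [e1] at hk
    change MarII A (ev _) (od _) at hk
    rw [ev_weave, od_weave] at hk
    exact hk ⟨hA, tLe_move hx hv hinf 0⟩
  · intro h
    exact Pool.Agent.Q24.BD.boardsI_of_winsI ((marII_spec A).2.1.2 h)

/-! ### Classes -/

/-- The class `K` is closed under the operations which are given by countably many Borel sets and
Borel functions. -/
def OpClosed (K : Set (Set (ℕ → Bool))) : Prop :=
  ∀ A ∈ K, ∀ (C D : ℕ → ℕ → Set (ℕ → Bool)) (F : ℕ → ℕ → (ℕ → Bool) → ℕ → Bool),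
    (∀ a b, MeasurableSet (C a b) ∧ MeasurableSet (D a b) ∧ Measurable (F a b)) →
      (⋃ a, ⋂ b, (C a b ∪ (D a b ∩ F a b ⁻¹' A))) ∈ K

variable {K : Set (Set (ℕ → Bool))}

theorem OpClosed.iUnion (hK : OpClosed K) {A : Set (ℕ → Bool)} (hA : A ∈ K)
    {C D : ℕ → Set (ℕ → Bool)} {F : ℕ → (ℕ → Bool) → ℕ → Bool} (hC : ∀ a, MeasurableSet (C a))
    (hD : ∀ a, MeasurableSet (D a)) (hF : ∀ a, Measurable (F a)) :
    (⋃ a, (C a ∪ (D a ∩ F a ⁻¹' A))) ∈ K := by
  have := hK A hA (fun a _ => C a) (fun a _ => D a) (fun a _ => F a)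
    fun a _ => ⟨hC a, hD a, hF a⟩
  simp only [Set.iInter_const] at this
  exact this

theorem OpClosed.iInter (hK : OpClosed K) {A : Set (ℕ → Bool)} (hA : A ∈ K)
    {C D : ℕ → Set (ℕ → Bool)} {F : ℕ → (ℕ → Bool) → ℕ → Bool} (hC : ∀ a, MeasurableSet (C a))
    (hD : ∀ a, MeasurableSet (D a)) (hF : ∀ a, Measurable (F a)) :
    (⋂ a, (C a ∪ (D a ∩ F a ⁻¹' A))) ∈ K := by
  have := hK A hA (fun _ b => C b) (fun _ b => D b) (fun _ b => F b)
    fun _ b => ⟨hC b, hD b, hF b⟩
  rw [Set.iUnion_const] at this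
  exact this

theorem OpClosed.one (hK : OpClosed K) {A : Set (ℕ → Bool)} (hA : A ∈ K)
    {C D : Set (ℕ → Bool)} {F : (ℕ → Bool) → ℕ → Bool} (hC : MeasurableSet C)
    (hD : MeasurableSet D) (hF : Measurable F) : (C ∪ (D ∩ F ⁻¹' A)) ∈ K := by
  have := hK.iUnion hA (C := fun _ => C) (D := fun _ => D) (F := fun _ => F)
    (fun _ => hC) (fun _ => hD) fun _ => hF
  rw [Set.iUnion_const] at this
  exact this

theorem OpClosed.pre (hK : OpClosed K) {A : Set (ℕ → Bool)} (hA : A ∈ K)
    {F : (ℕ → Bool) → ℕ → Bool} (hF : Measurable F) : F ⁻¹' A ∈ K := by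
  have := hK.one hA MeasurableSet.empty MeasurableSet.univ hF
  simpa using this

theorem OpClosed.inter (hK : OpClosed K) {A : Set (ℕ → Bool)} (hA : A ∈ K)
    {D : Set (ℕ → Bool)} {F : (ℕ → Bool) → ℕ → Bool} (hD : MeasurableSet D) (hF : Measurable F) :
    D ∩ F ⁻¹' A ∈ K := by
  have := hK.one hA MeasurableSet.empty hD hF
  simpa using this

theorem measurable_ev : Measurable ev := measurable_pi_iff.2 fun n => measurable_pi_apply (2 * n)

theorem measurable_od : Measurable od :=
  measurable_pi_iff.2 fun n => measurable_pi_apply (2 * n + 1)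

theorem measurable_join {f g : (ℕ → Bool) → ℕ → Bool} (hf : Measurable f) (hg : Measurable g) :
    Measurable fun x => join (f x) (g x) := by
  refine measurable_pi_iff.2 fun n => ?_
  unfold join
  split_ifs
  · exact measurable_pi_iff.1 hf _
  · exact measurable_pi_iff.1 hg _

theorem measurable_tLe {f g : (ℕ → Bool) → ℕ → Bool} (hf : Measurable f) (hg : Measurable g) :
    MeasurableSet {x | TLe (f x) (g x)} := by
  have h1 : {x | TLe (f x) (g x)} = ⋃ e, (g ⁻¹' good e ∩ {x | f x = out e (g x)}) := by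
    ext x
    simp only [Set.mem_ofPred_eq, Set.mem_iUnion, Set.mem_inter_iff, Set.mem_preimage,
      ← computes_iff]
    exact ⟨fun h => computes_of_tLe h, fun ⟨e, he⟩ => tLe_of_computes he⟩
  rw [h1]
  exact MeasurableSet.iUnion fun e => ((Pool.Agent.Q24.BD.meas_good e).preimage hg).inter
    (measurableSet_eq_fun hf ((Pool.Agent.Q24.BD.measurable_out e).comp hg))

theorem UCF.measurable {c : ℕ → Bool} {G : (ℕ → Bool) → ℕ → Bool} (h : UCF c G) :
    Measurable G := by
  refine Continuous.measurable (continuous_pi fun n => ?_)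
  rw [continuous_iff_continuousAt]
  intro w
  obtain ⟨k, hk⟩ := h.cont w (n + 1)
  have h3 : {x' : ℕ → Bool | pre x' k = pre w k} = ⋂ i ∈ Finset.range k, {x' | x' i = w i} := by
    ext x'
    simp [pre_eq_iff]
  have h4 : {x' : ℕ → Bool | pre x' k = pre w k} ∈ nhds w := by
    rw [h3]
    refine (isOpen_biInter_finset fun i _ => ?_).mem_nhds (by simp)
    exact (isOpen_discrete ({w i} : Set Bool)).preimage (continuous_apply (A := fun _ : ℕ => Bool) i)
  refine (continuousAt_const (y := G w n)).congr ?_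
  filter_upwards [h4] with w' hw'
  exact (pre_eq_iff.1 (hk w' hw') n (Nat.lt_succ_self n)).symm

theorem exists_id : ∃ e, ∀ x, x ∈ good e ∧ out e x = x := by
  obtain ⟨e, he⟩ := exists_code US.query
  refine ⟨e, fun x => ?_⟩
  have h1 := computes_iff.1 (he x x fun n b => Iff.rfl)
  exact ⟨h1.1, h1.2.symm⟩

theorem link_iff {i : ℕ} {p q : ℕ → Bool} : Link i p q ↔ p ∈ Deg i ∧ q = out i.unpair.1 p := by
  unfold Link Deg
  rw [computes_iff, computes_iff]
  constructor
  · rintro ⟨⟨h1, rfl⟩, h2, h3⟩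
    exact ⟨⟨h1, h2, h3.symm⟩, rfl⟩
  · rintro ⟨⟨h1, h2, h3⟩, rfl⟩
    exact ⟨⟨h1, rfl⟩, h2, h3.symm⟩

theorem goodI_mem (hK : OpClosed K) {A : Set (ℕ → Bool)} (hA : A ∈ K) : GoodI A ∈ K := by
  obtain ⟨e, he⟩ := exists_id
  have h1 : GoodI A = ⋂ i : ℕ, (((Deg i)ᶜ ∪ ((Stall i e i.unpair.1)ᶜ ∩ (Ended i e i.unpair.1)ᶜ)) ∪
      (((Stall i e i.unpair.1)ᶜ ∩ Ended i e i.unpair.1) ∩
        (fun p => weave (tape' i (out e p)) (tape' i (out i.unpair.1 p))) ⁻¹' A)) := by
    ext p
    simp only [GoodI, Set.mem_ofPred_eq, Set.mem_iInter, Set.mem_union, Set.mem_inter_iff,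
      Set.mem_compl_iff, Set.mem_preimage, link_iff]
    rw [forall_comm]
    refine forall_congr' fun i => ?_
    have hS : p ∈ Stall i e i.unpair.1 ↔
        ∃ m, ¬ Has p i m ∧ ∀ j < m, Has p i j ∧ Has (out i.unpair.1 p) i j := by
      simp only [Stall, Set.mem_ofPred_eq, (he p).2]
    have hE : p ∈ Ended i e i.unpair.1 ↔ ∀ m, Has p i m ∧ Has (out i.unpair.1 p) i m := by
      simp only [Ended, Set.mem_ofPred_eq, (he p).2]
    constructor
    · intro h
      by_cases hd : p ∈ Deg i
      · have h2 := h (out i.unpair.1 p) ⟨hd, rfl⟩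
        unfold Loses at h2
        rw [not_or, ← hS, ← hE, not_and_or, not_not] at h2
        by_cases h3 : p ∈ Ended i e i.unpair.1
        · refine Or.inr ⟨⟨h2.1, h3⟩, ?_⟩
          have h4 := hE.1 h3
          rw [(he p).2, Pool.Agent.Q24.BD.tape'_eq fun m => (h4 m).1,
            Pool.Agent.Q24.BD.tape'_eq fun m => (h4 m).2]
          exact h2.2.resolve_left fun h => h h3
        · exact Or.inl (Or.inr ⟨h2.1, h3⟩)
      · exact Or.inl (Or.inl hd)
    · rintro h q ⟨hd, rfl⟩ hL
      unfold Loses at hL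
      rw [← hS, ← hE] at hL
      rcases h with (h | ⟨h2, h3⟩) | ⟨⟨h2, h3⟩, h4⟩
      · exact h hd
      · rcases hL with h5 | h5
        · exact h2 h5
        · exact h3 h5.1
      · rcases hL with h5 | h5
        · exact h2 h5
        · have h6 := hE.1 h3
          rw [(he p).2, Pool.Agent.Q24.BD.tape'_eq fun m => (h6 m).1,
            Pool.Agent.Q24.BD.tape'_eq fun m => (h6 m).2] at h4
          exact h5.2 h4
  rw [h1]
  refine hK.iInter hA (fun i => ?_) (fun i => ?_) fun i => ?_
  · exact (Pool.Agent.Q24.BD.meas_deg i).compl.union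
      ((Pool.Agent.Q24.BD.meas_stall _ _ _).compl.inter (Pool.Agent.Q24.BD.meas_ended _ _ _).compl)
  · exact (Pool.Agent.Q24.BD.meas_stall _ _ _).compl.inter (Pool.Agent.Q24.BD.meas_ended _ _ _)
  · exact Pool.Agent.Q24.BD.measurable_weave
      ((Pool.Agent.Q24.BD.measurable_tape' _).comp (Pool.Agent.Q24.BD.measurable_out _))
      ((Pool.Agent.Q24.BD.measurable_tape' _).comp (Pool.Agent.Q24.BD.measurable_out _))

theorem sat_mem (hK : OpClosed K) {A : Set (ℕ → Bool)} (hA : A ∈ K) : Sat A ∈ K := by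
  have h1 : Sat A = ⋃ a : ℕ, (∅ ∪ (Deg a ∩ (out a.unpair.1) ⁻¹' A)) := by
    ext x
    simp only [Sat, Set.mem_ofPred_eq, Set.mem_iUnion, Set.mem_union, Set.mem_inter_iff,
      Set.mem_preimage, Set.mem_empty_iff_false, false_or]
    constructor
    · rintro ⟨y, hy, h2, h3⟩
      obtain ⟨a, h4, h5⟩ := Pool.Agent.Q24.BD.exists_deg (p := y) (x := x) ⟨h2, h3⟩
      exact ⟨a, h4, by rw [h5]; exact hy⟩
    · rintro ⟨a, h4, h5⟩
      have h6 := Pool.Agent.Q24.BD.mem_deg h4
      exact ⟨_, h5, h6.1, h6.2⟩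
  rw [h1]
  exact hK.iUnion hA (fun _ => MeasurableSet.empty) (fun a => Pool.Agent.Q24.BD.meas_deg a)
    fun a => Pool.Agent.Q24.BD.measurable_out _

theorem measurable_shift : Measurable fun (x : ℕ → Bool) (n : ℕ) => x (n + 1) :=
  measurable_pi_iff.2 fun n => measurable_pi_apply (n + 1)

theorem dual_mem (hK : OpClosed K) (hc : ∀ A ∈ K, Aᶜ ∈ K) {A : Set (ℕ → Bool)} (hA : A ∈ K) :
    dual A ∈ K := hK.pre (hc A hA) measurable_shift

theorem tr_mem (hK : OpClosed K) {A : Set (ℕ → Bool)} (hA : A ∈ K) (T : Set (List Bool)) :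
    Tr T A ∈ K :=
  hK.inter hA (D := {w | TLe (tc T) w}) (F := br (tc T))
    (measurable_tLe measurable_const measurable_id) (ucf_br _).measurable

theorem marI_mem (hK : OpClosed K) {A : Set (ℕ → Bool)} (hA : A ∈ K) : Plays (MarI A) ∈ K := by
  have h1 : Plays (MarI A) = {z | TLe (od z) (ev z)} ∩ ev ⁻¹' A := by
    ext z
    exact and_comm
  rw [h1]
  exact hK.inter hA (measurable_tLe measurable_od measurable_ev) measurable_ev

theorem marII_mem (hK : OpClosed K) (hc : ∀ A ∈ K, Aᶜ ∈ K) {A : Set (ℕ → Bool)} (hA : A ∈ K) :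
    Plays (MarII A) ∈ K := by
  have h1 : Plays (MarII A) = ({z | TLe (ev z) (od z)} ∩ od ⁻¹' A)ᶜ := by
    ext z
    change ¬ _ ↔ ¬ _
    exact not_congr and_comm
  rw [h1]
  exact hc _ (hK.inter hA (measurable_tLe measurable_ev measurable_od) measurable_od)

theorem inv_mem (hK : OpClosed K) {A : Set (ℕ → Bool)} (hA : A ∈ K) : Plays (Inv A) ∈ K := by
  have h1 : Plays (Inv A) = ({z | TLe (od z) (ev z)} ∩ {z | TLe (ev z) (od z)}ᶜ) ∪
      ({z | TLe (od z) (ev z)} ∩ ev ⁻¹' A) := by
    ext z
    simp only [Plays, Inv, Set.mem_ofPred_eq, Set.mem_union, Set.mem_inter_iff, Set.mem_compl_iff,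
      Set.mem_preimage]
    tauto
  rw [h1]
  have h2 := measurable_tLe measurable_od measurable_ev
  exact hK.one hA (h2.inter (measurable_tLe measurable_ev measurable_od).compl) h2 measurable_ev

variable {P : (ℕ → Bool) → (ℕ → Bool) → Prop}

theorem diag_mem (hK : OpClosed K) (hP : Plays P ∈ K) : {x | P x x} ∈ K := by
  have h1 : {x | P x x} = (fun x => join x x) ⁻¹' Plays P := by
    ext x
    simp [Plays]
  rw [h1]
  exact hK.pre hP (measurable_join measurable_id measurable_id)

theorem traceI_mem (hK : OpClosed K) (hc : ∀ A ∈ K, Aᶜ ∈ K) (hP : Plays P ∈ K) :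
    {x | ¬ P x (ev x)} ∈ K := by
  have h1 : {x | ¬ P x (ev x)} = (fun x => join x (ev x)) ⁻¹' (Plays P)ᶜ := by
    ext x
    simp [Plays]
  rw [h1]
  exact hK.pre (hc _ hP) (measurable_join measurable_id measurable_ev)

theorem traceII_mem (hK : OpClosed K) (hP : Plays P ∈ K) : {x | P (ev x) x} ∈ K := by
  have h1 : {x | P (ev x) x} = (fun x => join (ev x) x) ⁻¹' Plays P := by
    ext x
    simp [Plays]
  rw [h1]
  exact hK.pre hP (measurable_join measurable_ev measurable_id)

/-! ### The equivalences -/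

/-- Turing determinacy for the class `K`. -/
def TD (K : Set (Set (ℕ → Bool))) : Prop := ∀ A ∈ K, TuringInvariant A → Determined A

/-- Strong Turing determinacy for the class `K`. -/
def STD (K : Set (Set (ℕ → Bool))) : Prop := ∀ A ∈ K, MissesCone A ∨ ContainsPP A

theorem cone_of_containsPP {A : Set (ℕ → Bool)} (hA : TuringInvariant A) (h : ContainsPP A) :
    ∃ c, ∀ x, TLe c x → x ∈ A := by
  obtain ⟨T, hT, hTA⟩ := h
  refine ⟨tc T, fun x hx => hA (br (tc T) x) x ?_ (hT.tLe_code x) (hTA (hT.toPTree.br_mem x))⟩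
  exact (ucf_br (tc T)).tLe hx (TLe.refl x)

theorem td_of_std (h : STD K) : TD K := fun A hA hi => by
  rcases h A hA with h1 | h1
  · exact Or.inr ((ti_winsII hi).2 h1)
  · exact Or.inl ((ti_winsI hi).2 (cone_of_containsPP hi h1))

theorem td_iff (hK : OpClosed K) : TD K ↔
    ∀ P, Plays P ∈ K → IncI P → DecII P → Determined (Plays P) := by
  constructor
  · intro h P hP h1 h2
    rcases h _ (diag_mem hK hP) (diag_invariant h1 h2) with h3 | h3
    · exact Or.inl ((diag_winsI h1 h2).2 ((ti_winsI (diag_invariant h1 h2)).1 h3))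
    · exact Or.inr ((diag_winsII h1 h2).2 ((ti_winsII (diag_invariant h1 h2)).1 h3))
  · intro h A hA hi
    obtain ⟨h1, h2, h3⟩ := inv_spec hi
    rcases h _ (inv_mem hK hA) h1 h2 with h4 | h4
    · have h5 := (diag_winsI h1 h2).1 h4
      have h6 : ∃ c, ∀ x, TLe c x → x ∈ {x | Inv A x x} := h5
      rw [h3] at h6
      exact Or.inl ((ti_winsI hi).2 h6)
    · have h5 := (diag_winsII h1 h2).1 h4
      have h6 : ∃ c, ∀ x, TLe c x → x ∉ {x | Inv A x x} := h5
      rw [h3] at h6
      exact Or.inr ((ti_winsII hi).2 h6)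

theorem std_tfae (hK : OpClosed K) (hc : ∀ A ∈ K, Aᶜ ∈ K) : List.TFAE [
    ∀ A ∈ K, MissesCone A ∨ ContainsPP A,
    ∀ A ∈ K, WinsI A ∨ BoardsII A,
    ∀ A ∈ K, BoardsI A ∨ WinsII A,
    ∀ P, Plays P ∈ K → IncI P → Determined (Plays P),
    ∀ P, Plays P ∈ K → DecII P → Determined (Plays P),
    (∀ A ∈ K, TuringInvariant A → Determined A) ∧ ∀ A ∈ K, PMeas A] := by
  tfae_have 1 → 2 := fun h A hA => by
    rcases h _ (goodI_mem hK hA) with h1 | h1
    · exact Or.inr (boardsII_of_not_good h1)
    · exact Or.inl (winsI_of_good h1)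
  tfae_have 2 → 1 := fun h A hA => by
    rcases h _ (marI_mem hK hA) with h1 | h1
    · exact Or.inr ((marI_spec A).2.1.1 h1)
    · exact Or.inl (boardsII_marI.1 h1)
  tfae_have 1 → 3 := fun h A hA => by
    rcases h _ (goodI_mem hK (dual_mem hK hc hA)) with h1 | h1
    · exact Or.inl (boardsI_of_not_good h1)
    · exact Or.inr (winsII_of_good h1)
  tfae_have 3 → 1 := fun h A hA => by
    rcases h _ (marII_mem hK hc hA) with h1 | h1
    · exact Or.inl (boardsI_marII.1 h1)
    · exact Or.inr ((marII_spec A).2.2.1 h1)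
  tfae_have 1 → 4 := fun h P hP h1 => by
    rcases h _ (traceI_mem hK hc hP) with h2 | h2
    · exact Or.inl ((incI_winsI h1).2 h2)
    · exact Or.inr ((incI_winsII h1).2 h2)
  tfae_have 4 → 1 := fun h A hA => by
    rcases h _ (marII_mem hK hc hA) (marII_spec A).1 with h1 | h1
    · exact Or.inl ((marII_spec A).2.1.1 h1)
    · exact Or.inr ((marII_spec A).2.2.1 h1)
  tfae_have 1 → 5 := fun h P hP h1 => by
    rcases h _ (traceII_mem hK hP) with h2 | h2
    · exact Or.inr ((decII_winsII h1).2 h2)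
    · exact Or.inl ((decII_winsI h1).2 h2)
  tfae_have 5 → 1 := fun h A hA => by
    rcases h _ (marI_mem hK hA) (marI_spec A).1 with h1 | h1
    · exact Or.inr ((marI_spec A).2.1.1 h1)
    · exact Or.inl ((marI_spec A).2.2.1 h1)
  tfae_have 1 → 6 := fun h =>
    ⟨td_of_std h, fun A hA => meas_of fun T _ => h _ (tr_mem hK hA T)⟩
  tfae_have 6 → 1 := fun h A hA => by
    rcases misses_or_ppos (h.1 _ (sat_mem hK hA) (inv_sat A)) with h1 | h1
    · exact Or.inl h1
    · exact Or.inr (contains_of_meas (h.2 A hA) h1)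
  tfae_finish

end Pool.Agent.H660.TM
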