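import Pool.Agent.H660.TM.Thin

set_option autoImplicit false

/-! Games whose payoff is monotone in the Turing degrees of the moves of the players. -/

namespace Pool.Agent.H660.TM

open Encodable
open Pool.Agent.Helper227
open Pool.Agent.H685R3 (US WinsI WinsII Determined TuringInvariant hist hist_eq_pre play plays bit
  play_own play_other pre_play Wins winsI_iff winsII_iff wins_of_code cone_of_wins wins_of_cone)

/-- The set of plays in which the moves `x` of player I and `y` of player II satisfy `P x y`. -/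
def Plays (P : (ℕ → Bool) → (ℕ → Bool) → Prop) : Set (ℕ → Bool) := {z | P (ev z) (od z)}

/-- `P` is increasing in the Turing degree of the moves of player I. -/
def IncI (P : (ℕ → Bool) → (ℕ → Bool) → Prop) : Prop := ∀ x x' y, TLe x x' → P x y → P x' y

/-- `P` is decreasing in the Turing degree of the moves of player I. -/
def DecI (P : (ℕ → Bool) → (ℕ → Bool) → Prop) : Prop := ∀ x x' y, TLe x' x → P x y → P x' y

/-- `P` is increasing in the Turing degree of the moves of player II. -/
def IncII (P : (ℕ → Bool) → (ℕ → Bool) → Prop) : Prop := ∀ x y y', TLe y y' → P x y → P x y'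

/-- `P` is decreasing in the Turing degree of the moves of player II. -/
def DecII (P : (ℕ → Bool) → (ℕ → Bool) → Prop) : Prop := ∀ x y y', TLe y' y → P x y → P x y'

theorem ucf_play (z : ℕ → Bool) (b : ℕ) {K : (ℕ → Bool) → ℕ → Bool} (hK : UCF z K) :
    UCF z fun w => play z (K w) b := by
  have hm : PrimrecPred fun y : (ℕ × List Bool) × Bool => y.1.1 % 2 = b :=
    Primrec.eq.comp (Primrec.nat_mod.comp (Primrec.fst.comp Primrec.fst) (Primrec.const 2))
      (Primrec.const b)
  have hbit : UC z fun w (y : (ℕ × List Bool) × Bool) =>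
      bit z (K w) b y.1.1 (encode y.1.2) = y.2 := by
    refine (UC.or (UC.and (UC.of_prim hm) (UC.cquery.comp
      (f := fun y : (ℕ × List Bool) × Bool => (encode y.1.2, y.2))
      ((Primrec.encode.comp (Primrec.snd.comp Primrec.fst)).pair Primrec.snd)))
      (UC.and (UC.of_prim hm.not) (UC.comp hK
      (f := fun y : (ℕ × List Bool) × Bool => (y.1.1 / 2, y.2))
      ((Primrec.nat_div.comp (Primrec.fst.comp Primrec.fst) (Primrec.const 2)).pair
        Primrec.snd)))).of_eq fun w y => ?_
    rw [bit]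
    by_cases h : y.1.1 % 2 = b
    · rw [if_pos h]
      simp [h]
    · rw [if_neg h]
      simp [h]
  have hst : UC z fun w (x : ℕ × List Bool) => plays z (K w) b x.1 = x.2 := by
    refine UC.iterate (st := fun w => plays z (K w) b) (s0 := [])
      (S := fun w n L L' => ∃ c : Bool, bit z (K w) b n (encode L) = c ∧ L ++ [c] = L')
      (fun _ => rfl) ?_ ?_
    · refine UC.ex (α := (ℕ × List Bool) × List Bool) (p := fun w y (c : Bool) =>
        bit z (K w) b y.1.1 (encode y.1.2) = c ∧ y.1.2 ++ [c] = y.2) (UC.and ?_ (UC.of_prim ?_))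
      · exact hbit.comp (f := fun y : ((ℕ × List Bool) × List Bool) × Bool => (y.1.1, y.2))
          ((Primrec.fst.comp Primrec.fst).pair Primrec.snd)
      · exact Primrec.eq.comp (Primrec.list_append.comp
          (Primrec.snd.comp (Primrec.fst.comp Primrec.fst))
          (Primrec.list_cons.comp Primrec.snd (Primrec.const [])))
          (Primrec.snd.comp Primrec.fst)
    · intro w n L
      constructor
      · intro h
        exact ⟨_, rfl, h⟩
      · rintro ⟨c, rfl, h⟩
        exact h
  have h1 : UC z fun w (x : ℕ × Bool) => ∃ L : List Bool, plays z (K w) b x.1 = L ∧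
      bit z (K w) b x.1 (encode L) = x.2 := by
    refine UC.ex (p := fun w (x : ℕ × Bool) (L : List Bool) => plays z (K w) b x.1 = L ∧
      bit z (K w) b x.1 (encode L) = x.2) (UC.and ?_ ?_)
    · exact hst.comp (f := fun y : (ℕ × Bool) × List Bool => (y.1.1, y.2))
        ((Primrec.fst.comp Primrec.fst).pair Primrec.snd)
    · exact hbit.comp (f := fun y : (ℕ × Bool) × List Bool => ((y.1.1, y.2), y.1.2))
        (((Primrec.fst.comp Primrec.fst).pair Primrec.snd).pair (Primrec.snd.comp Primrec.fst))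
  refine h1.of_eq fun w x => ?_
  constructor
  · rintro ⟨L, rfl, h⟩
    exact h
  · intro h
    exact ⟨_, rfl, h⟩

theorem tLe_play' {z u B : ℕ → Bool} (b : ℕ) (hz : TLe z B) (hu : TLe u B) :
    TLe (play z u b) B := (ucf_play z b UCF.id).tLe hz hu

variable {P : (ℕ → Bool) → (ℕ → Bool) → Prop}

/-- The answers of a winning strategy of player I. -/
theorem exists_resI (h : WinsI (Plays P)) : ∃ z, ∀ y, P (ev (play z y 0)) y := by
  obtain ⟨s, hs⟩ := h
  refine ⟨fun n => s ((decode (α := List Bool) n).getD []), fun y => ?_⟩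
  have h1 := hs (play (fun n => s ((decode (α := List Bool) n).getD [])) y 0) fun n => by
    have h2 := play_own (z := fun n => s ((decode (α := List Bool) n).getD [])) (u := y)
      (b := 0) (by omega) n
    simp only [Nat.add_zero] at h2
    rw [h2]
    simp [hist_eq_pre]
  have h2 : od (play (fun n => s ((decode (α := List Bool) n).getD [])) y 0) = y :=
    funext fun n => play_other (b := 0) (by omega) n
  change P _ _ at h1
  rwa [h2] at h1

/-- The answers of a winning strategy of player II. -/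
theorem exists_resII (h : WinsII (Plays P)) : ∃ z, ∀ x, ¬ P x (od (play z x 1)) := by
  obtain ⟨s, hs⟩ := h
  refine ⟨fun n => s ((decode (α := List Bool) n).getD []), fun x => ?_⟩
  have h1 := hs (play (fun n => s ((decode (α := List Bool) n).getD [])) x 1) fun n => by
    rw [play_own (by omega) n]
    simp [hist_eq_pre]
  have h2 : ev (play (fun n => s ((decode (α := List Bool) n).getD [])) x 1) = x :=
    funext fun n => play_other (b := 1) (by omega) n
  change ¬ P _ _ at h1
  rwa [h2] at h1

/-- The moves of player II in a finite play. -/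
def odl (L : List Bool) : ℕ → Bool := fun n => L.getD (2 * n + 1) false

/-- The moves of player I in a finite play. -/
def evl (L : List Bool) : ℕ → Bool := fun n => L.getD (2 * n) false

theorem winsI_of (F : (ℕ → Bool) → ℕ → Bool)
    (hF : ∀ y y' n, pre y n = pre y' n → F y n = F y' n) (h : ∀ y, P (F y) y) :
    WinsI (Plays P) := by
  refine ⟨fun L => F (odl L) (L.length / 2), fun x hx => ?_⟩
  have h1 : ev x = F (od x) := by
    funext n
    rw [ev, hx n]
    beta_reduce
    rw [hist_eq_pre, length_pre, show 2 * n / 2 = n by omega]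
    refine hF _ _ _ (pre_eq_iff.2 fun i hi => ?_)
    rw [odl, pre_getD _ _ _ _ (by omega), od]
  change P (ev x) (od x)
  rw [h1]
  exact h _

theorem winsII_of (F : (ℕ → Bool) → ℕ → Bool)
    (hF : ∀ y y' n, pre y (n + 1) = pre y' (n + 1) → F y n = F y' n) (h : ∀ x, ¬ P x (F x)) :
    WinsII (Plays P) := by
  refine ⟨fun L => F (evl L) (L.length / 2), fun x hx => ?_⟩
  have h1 : od x = F (ev x) := by
    funext n
    rw [od, hx n]
    beta_reduce
    rw [hist_eq_pre, length_pre, show (2 * n + 1) / 2 = n by omega]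
    refine hF _ _ _ (pre_eq_iff.2 fun i hi => ?_)
    rw [evl, pre_getD _ _ _ _ (by omega), ev]
  change ¬ P (ev x) (od x)
  rw [h1]
  exact h _

theorem join_lipschitz {c y y' : ℕ → Bool} {n : ℕ} (h : pre y n = pre y' n) :
    join c y n = join c y' n := by
  unfold join
  split_ifs with h1
  · rfl
  · exact pre_eq_iff.1 h _ (by omega)

theorem tLe_join_swap (x y : ℕ → Bool) : TLe (join x y) (join y x) :=
  join_tLe (tLe_join_right _ _) (tLe_join_left _ _)

/-! ### Increasing in the degree of player I and decreasing in the degree of player II -/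

theorem diag_winsI (h1 : IncI P) (h2 : DecII P) :
    WinsI (Plays P) ↔ ∃ c, ∀ x, TLe c x → P x x := by
  constructor
  · intro h
    obtain ⟨z, hz⟩ := exists_resI h
    exact ⟨z, fun x hx => h1 _ _ _ ((tLe_ev _).trans (tLe_play' 0 hx (TLe.refl x))) (hz x)⟩
  · rintro ⟨c, hc⟩
    refine winsI_of (fun y => join c y) (fun y y' n h => join_lipschitz h) fun y => ?_
    exact h2 _ _ _ (tLe_join_right c y) (hc _ (tLe_join_left c y))

theorem diag_winsII (h1 : IncI P) (h2 : DecII P) :
    WinsII (Plays P) ↔ ∃ c, ∀ x, TLe c x → ¬ P x x := by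
  constructor
  · intro h
    obtain ⟨z, hz⟩ := exists_resII h
    refine ⟨z, fun x hx hP => hz x ?_⟩
    exact h2 _ _ _ ((tLe_od _).trans (tLe_play' 1 hx (TLe.refl x))) hP
  · rintro ⟨c, hc⟩
    refine winsII_of (fun y => join c y)
      (fun y y' n h => join_lipschitz (pre_eq_mono (Nat.le_succ n) h)) fun x hP => ?_
    exact hc _ (tLe_join_left c x) (h1 _ _ _ (tLe_join_right c x) hP)

theorem diag_invariant (h1 : IncI P) (h2 : DecII P) : TuringInvariant {x | P x x} :=
  fun x y hxy hyx h => h2 y x y hyx (h1 x y x hxy h)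

theorem ti_winsI {B : Set (ℕ → Bool)} (hB : TuringInvariant B) :
    WinsI B ↔ ∃ c, ∀ x, TLe c x → x ∈ B :=
  ⟨fun h => cone_of_wins (b := 0) (by omega) hB (winsI_iff.1 h),
    fun ⟨_, hc⟩ => winsI_iff.2 (wins_of_cone (b := 0) (by omega) hc)⟩

theorem ti_winsII {B : Set (ℕ → Bool)} (hB : TuringInvariant B) :
    WinsII B ↔ ∃ c, ∀ x, TLe c x → x ∉ B := by
  have hB' : TuringInvariant Bᶜ := fun x y h h' hx hy => hx (hB y x h' h hy)
  exact ⟨fun h => cone_of_wins (b := 1) (by omega) hB' (winsII_iff.1 h),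
    fun ⟨c, hc⟩ => winsII_iff.2 (wins_of_cone (b := 1) (by omega) hc)⟩

/-- The monotone payoff attached to a Turing invariant set. -/
def Inv (B : Set (ℕ → Bool)) (x y : ℕ → Bool) : Prop := TLe y x ∧ (TLe x y → x ∈ B)

theorem inv_spec {B : Set (ℕ → Bool)} (hB : TuringInvariant B) :
    IncI (Inv B) ∧ DecII (Inv B) ∧ {x | Inv B x x} = B := by
  refine ⟨?_, ?_, ?_⟩
  · rintro x x' y hx ⟨h1, h2⟩
    exact ⟨h1.trans hx, fun h3 => hB x x' hx (h3.trans h1) (h2 (hx.trans h3))⟩
  · rintro x y y' hy ⟨h1, h2⟩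
    exact ⟨hy.trans h1, fun h3 => h2 (h3.trans hy)⟩
  · ext x
    exact ⟨fun h => h.2 (TLe.refl x), fun h => ⟨TLe.refl x, fun _ => h⟩⟩

/-! ### Increasing in the degree of player I -/

theorem incI_winsI (h1 : IncI P) : WinsI (Plays P) ↔ MissesCone {x | ¬ P x (ev x)} := by
  constructor
  · intro h
    obtain ⟨z, hz⟩ := exists_resI h
    refine ⟨z, fun x hx hP => hP ?_⟩
    exact h1 _ _ _ ((tLe_ev _).trans (tLe_play' 0 hx (tLe_ev x))) (hz (ev x))
  · rintro ⟨c, hc⟩
    refine winsI_of (fun y => join c y) (fun y y' n h => join_lipschitz h) fun y => ?_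
    have h2 := hc (join y c) (tLe_join_right y c)
    simp only [Set.mem_ofPred_eq, ev_join, not_not] at h2
    exact h1 _ _ _ (tLe_join_swap y c) h2

/-- Slowing down. -/
def sl (x : ℕ → Bool) : ℕ → Bool := fun k => x (k / 2)

/-- Slowing down, with delay. -/
def sld (x : ℕ → Bool) : ℕ → Bool := fun k => if k < 2 then false else x (k / 2 - 1)

/-- Delay. -/
def dl (x : ℕ → Bool) : ℕ → Bool := fun k => if k = 0 then false else x (k - 1)

theorem tLe_sl (x : ℕ → Bool) : TLe x (sl x) := by
  have hf : Primrec fun n : ℕ => 2 * n := Primrec.nat_mul.comp (Primrec.const 2) Primrec.id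
  refine tLe_of_computable hf.to_comp fun n => ?_
  rw [sl, show 2 * n / 2 = n by omega]

theorem tLe_sld (x : ℕ → Bool) : TLe x (sld x) := by
  have hf : Primrec fun n : ℕ => 2 * n + 2 :=
    Primrec.succ.comp (Primrec.succ.comp (Primrec.nat_mul.comp (Primrec.const 2) Primrec.id))
  refine tLe_of_computable hf.to_comp fun n => ?_
  rw [sld, if_neg (by omega), show (2 * n + 2) / 2 - 1 = n by omega]

theorem tLe_dl (x : ℕ → Bool) : TLe x (dl x) := by
  have hf : Primrec fun n : ℕ => n + 1 := Primrec.succ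
  refine tLe_of_computable hf.to_comp fun n => ?_
  rw [dl, if_neg (by omega), show n + 1 - 1 = n by omega]

theorem countable_below (y : ℕ → Bool) : {w | TLe w y}.Countable := by
  obtain ⟨E, hE, hE1, hE2⟩ := exists_fam'
  have h1 : {w | TLe w y} ⊆ ⋃ e : ℕ, {w | Mp (E e) y w} := by
    intro w hw
    obtain ⟨e, he⟩ := (hE2 w y).1 hw
    exact Set.mem_iUnion.2 ⟨e, he⟩
  refine (Set.countable_iUnion fun e => ?_).mono h1
  have hAx : Ax (E e) := ⟨hE.mono e, hE.single e, hE1 e⟩
  exact Set.Subsingleton.countable fun w hw w' hw' => hAx.mp_unique hw hw'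

theorem incI_winsII (h1 : IncI P) : WinsII (Plays P) ↔ ContainsPP {x | ¬ P x (ev x)} := by
  constructor
  · intro h
    obtain ⟨z, hz⟩ := exists_resII h
    let G : (ℕ → Bool) → ℕ → Bool := fun w => join (od (play z (join z w) 1)) (join z w)
    have hj : UCF z fun w => join z w := UCF.param.join UCF.id
    have hG : UCF z G := (ucf_play z 1 hj).od.join hj
    have hle : ∀ w, TLe (G w) (join z w) := fun w =>
      join_tLe ((tLe_od _).trans (tLe_play' 1 (tLe_join_left _ _) (TLe.refl _))) (TLe.refl _)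
    obtain ⟨T, hT, -, hT'⟩ := range_tree_inj hG
      (fun w => (tLe_join_left z w).trans (tLe_join_right _ _)) (by
        intro w w' hw
        have h2 := congrArg (fun x => od (od x)) hw
        simpa [G] using h2)
    refine ⟨T, hT, ?_⟩
    rw [hT']
    rintro _ ⟨w, rfl⟩ hP
    refine hz (join z w) (h1 _ _ _ (hle w) ?_)
    have h2 : ev (G w) = od (play z (join z w) 1) := ev_join _ _
    rwa [h2] at hP
  · rintro ⟨T, hT, hTA⟩
    refine winsII_of (fun x => ev (br (tc T) (sl x))) (fun x x' n h => ?_) fun x hP => ?_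
    · have h2 : pre (sl x) (2 * n + 1) = pre (sl x') (2 * n + 1) :=
        pre_eq_iff.2 fun i hi => pre_eq_iff.1 h _ (by omega)
      exact pre_eq_iff.1 (br_lipschitz (t := tc T) h2) (2 * n) (by omega)
    · refine hTA (hT.toPTree.br_mem (sl x)) (h1 _ _ _ ?_ hP)
      exact (tLe_sl x).trans (hT.tLe_code (sl x))

/-- Player II wants his moves `y` to be in `A` and to compute the moves `x` of player I. -/
def MarII (A : Set (ℕ → Bool)) (x y : ℕ → Bool) : Prop := ¬ (y ∈ A ∧ TLe x y)

/-- Player I wants his moves `x` to be in `A` and to compute the moves `y` of player II. -/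
def MarI (A : Set (ℕ → Bool)) (x y : ℕ → Bool) : Prop := x ∈ A ∧ TLe y x

theorem marII_spec (A : Set (ℕ → Bool)) : IncI (MarII A) ∧
    (WinsI (Plays (MarII A)) ↔ MissesCone A) ∧ (WinsII (Plays (MarII A)) ↔ ContainsPP A) := by
  refine ⟨?_, ⟨fun h => ?_, ?_⟩, ⟨fun h => ?_, ?_⟩⟩
  · rintro x x' y hx h1 ⟨h2, h3⟩
    exact h1 ⟨h2, hx.trans h3⟩
  · obtain ⟨z, hz⟩ := exists_resI h
    exact ⟨z, fun y hy hA => hz y ⟨hA, (tLe_ev _).trans (tLe_play' 0 hy (TLe.refl y))⟩⟩
  · rintro ⟨c, hc⟩
    exact winsI_of (fun _ => c) (fun _ _ _ _ => rfl) fun y h => hc y h.2 h.1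
  · obtain ⟨z, hz⟩ := exists_resII h
    simp only [MarII, not_not] at hz
    have hj : UCF z fun w => join z w := UCF.param.join UCF.id
    have hG : UCF z fun w => od (play z (join z w) 1) := (ucf_play z 1 hj).od
    obtain ⟨T, hT, -, hT'⟩ := range_tree hG (fun w => (tLe_join_left z w).trans (hz _).2)
      fun y => (countable_below y).mono fun w hw => by
        have h1 := (hz (join z w)).2
        have hw : od (play z (join z w) 1) = y := hw
        rw [hw] at h1
        exact (tLe_join_right z w).trans h1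
    refine ⟨T, hT, ?_⟩
    rw [hT']
    rintro _ ⟨w, rfl⟩
    exact (hz _).1
  · rintro ⟨T, hT, hTA⟩
    refine winsII_of (fun x => br (tc T) x) (fun x x' n h => ?_) fun x hP => ?_
    · exact pre_eq_iff.1 (br_lipschitz (t := tc T) h) n (by omega)
    · exact hP ⟨hTA (hT.toPTree.br_mem x), hT.tLe_code x⟩

/-! ### Decreasing in the degree of player II -/

theorem decII_winsII (h1 : DecII P) : WinsII (Plays P) ↔ MissesCone {x | P (ev x) x} := by
  constructor
  · intro h
    obtain ⟨z, hz⟩ := exists_resII h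
    refine ⟨z, fun x hx hP => hz (ev x) ?_⟩
    exact h1 _ _ _ ((tLe_od _).trans (tLe_play' 1 hx (tLe_ev x))) hP
  · rintro ⟨c, hc⟩
    refine winsII_of (fun y => join c y)
      (fun y y' n h => join_lipschitz (pre_eq_mono (Nat.le_succ n) h)) fun x hP => ?_
    refine hc (join x c) (tLe_join_right x c) ?_
    simp only [Set.mem_ofPred_eq, ev_join]
    exact h1 _ _ _ (tLe_join_swap x c) hP

theorem decII_winsI (h1 : DecII P) : WinsI (Plays P) ↔ ContainsPP {x | P (ev x) x} := by
  constructor
  · intro h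
    obtain ⟨z, hz⟩ := exists_resI h
    let G : (ℕ → Bool) → ℕ → Bool := fun w => join (ev (play z (join z w) 0)) (join z w)
    have hj : UCF z fun w => join z w := UCF.param.join UCF.id
    have hG : UCF z G := (ucf_play z 0 hj).ev.join hj
    have hle : ∀ w, TLe (G w) (join z w) := fun w =>
      join_tLe ((tLe_ev _).trans (tLe_play' 0 (tLe_join_left _ _) (TLe.refl _))) (TLe.refl _)
    obtain ⟨T, hT, -, hT'⟩ := range_tree_inj hG
      (fun w => (tLe_join_left z w).trans (tLe_join_right _ _)) (by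
        intro w w' hw
        have h2 := congrArg (fun x => od (od x)) hw
        simpa [G] using h2)
    refine ⟨T, hT, ?_⟩
    rw [hT']
    rintro _ ⟨w, rfl⟩
    have h2 : ev (G w) = ev (play z (join z w) 0) := ev_join _ _
    change P (ev (G w)) (G w)
    rw [h2]
    exact h1 _ _ _ (hle w) (hz (join z w))
  · rintro ⟨T, hT, hTA⟩
    refine winsI_of (fun y => ev (br (tc T) (sld y))) (fun x x' n h => ?_) fun y => ?_
    · have h2 : pre (sld x) (2 * n + 1) = pre (sld x') (2 * n + 1) := by
        refine pre_eq_iff.2 fun i hi => ?_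
        rw [sld, sld]
        split_ifs with h3
        · rfl
        · exact pre_eq_iff.1 h _ (by omega)
      exact pre_eq_iff.1 (br_lipschitz (t := tc T) h2) (2 * n) (by omega)
    · exact h1 _ _ _ ((tLe_sld y).trans (hT.tLe_code (sld y)))
        (hTA (hT.toPTree.br_mem (sld y)))

theorem marI_spec (A : Set (ℕ → Bool)) : DecII (MarI A) ∧
    (WinsI (Plays (MarI A)) ↔ ContainsPP A) ∧ (WinsII (Plays (MarI A)) ↔ MissesCone A) := by
  refine ⟨?_, ⟨fun h => ?_, ?_⟩, ⟨fun h => ?_, ?_⟩⟩
  · rintro x y y' hy ⟨h2, h3⟩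
    exact ⟨h2, hy.trans h3⟩
  · obtain ⟨z, hz⟩ := exists_resI h
    have hj : UCF z fun w => join z w := UCF.param.join UCF.id
    have hG : UCF z fun w => ev (play z (join z w) 0) := (ucf_play z 0 hj).ev
    obtain ⟨T, hT, -, hT'⟩ := range_tree hG (fun w => (tLe_join_left z w).trans (hz _).2)
      fun y => (countable_below y).mono fun w hw => by
        have h1 := (hz (join z w)).2
        have hw : ev (play z (join z w) 0) = y := hw
        rw [hw] at h1
        exact (tLe_join_right z w).trans h1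
    refine ⟨T, hT, ?_⟩
    rw [hT']
    rintro _ ⟨w, rfl⟩
    exact (hz _).1
  · rintro ⟨T, hT, hTA⟩
    refine winsI_of (fun y => br (tc T) (dl y)) (fun x x' n h => ?_) fun y => ?_
    · have h2 : pre (dl x) (n + 1) = pre (dl x') (n + 1) := by
        refine pre_eq_iff.2 fun i hi => ?_
        rw [dl, dl]
        split_ifs with h3
        · rfl
        · exact pre_eq_iff.1 h _ (by omega)
      exact pre_eq_iff.1 (br_lipschitz (t := tc T) h2) n (by omega)
    · exact ⟨hTA (hT.toPTree.br_mem _), (tLe_dl y).trans (hT.tLe_code _)⟩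
  · obtain ⟨z, hz⟩ := exists_resII h
    exact ⟨z, fun x hx hA => hz x ⟨hA, (tLe_od _).trans (tLe_play' 1 hx (TLe.refl x))⟩⟩
  · rintro ⟨c, hc⟩
    exact winsII_of (fun _ => c) (fun _ _ _ _ => rfl) fun x h => hc x h.2 h.1

/-! ### The other cases -/

theorem determined_of (h : DecI P ∨ IncII P) : Determined (Plays P) := by
  have h0 : ∀ x : ℕ → Bool, TLe (fun _ => false) x := fun x => by
    rw [tLe_iff_SI]
    refine SI.of_prim (p := fun y : ℕ × Bool => false = y.2) ?_
    exact Primrec.eq.comp (Primrec.const false) Primrec.snd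
  rcases h with h | h
  · by_cases h1 : ∀ y, P (fun _ => false) y
    · exact Or.inl (winsI_of (fun _ _ => false) (fun _ _ _ _ => rfl) h1)
    · push Not at h1
      obtain ⟨y, hy⟩ := h1
      exact Or.inr (winsII_of (fun _ => y) (fun _ _ _ _ => rfl) fun x hx =>
        hy (h _ _ _ (h0 x) hx))
  · by_cases h1 : ∀ x, ¬ P x (fun _ => false)
    · exact Or.inr (winsII_of (fun _ _ => false) (fun _ _ _ _ => rfl) h1)
    · push Not at h1
      obtain ⟨x, hx⟩ := h1
      exact Or.inl (winsI_of (fun _ => x) (fun _ _ _ _ => rfl) fun y => h _ _ _ (h0 y) hx)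

/-! ### Measurability with respect to pointed perfect sets -/

/-- The Turing saturation. -/
def Sat (A : Set (ℕ → Bool)) : Set (ℕ → Bool) := {z | ∃ y ∈ A, TLe y z ∧ TLe z y}

theorem inv_sat (A : Set (ℕ → Bool)) : TuringInvariant (Sat A) := by
  rintro x y h1 h2 ⟨x', h3, h4, h5⟩
  exact ⟨x', h3, h4.trans h1, TLe.trans h2 h5⟩

theorem misses_or_ppos {A : Set (ℕ → Bool)} (h : Determined (Sat A)) :
    MissesCone A ∨ PPos A := by
  rcases h with h | h
  · obtain ⟨c, hc⟩ := (ti_winsI (inv_sat A)).1 h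
    exact Or.inr (ppos_of_cone hc)
  · obtain ⟨c, hc⟩ := (ti_winsII (inv_sat A)).1 h
    exact Or.inl ⟨c, fun x hx hA => hc x hx ⟨x, hA, TLe.refl x, TLe.refl x⟩⟩

/-- Every pointed perfect set contains a pointed perfect set which is contained in `A` or
disjoint from `A`. -/
def PMeas (A : Set (ℕ → Bool)) : Prop :=
  ∀ T, PPT T → ∃ T', PPT T' ∧ Body T' ⊆ Body T ∧ (Body T' ⊆ A ∨ ∀ x ∈ Body T', x ∉ A)

theorem contains_of_meas {A : Set (ℕ → Bool)} (h : PMeas A) (h' : PPos A) : ContainsPP A := by
  obtain ⟨T, hT, hTA⟩ := h'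
  obtain ⟨T', h1, h2, h3 | h3⟩ := h T hT
  · exact ⟨T', h1, h3⟩
  · obtain ⟨x, hx, hxA⟩ := hTA T' h1 h2
    exact absurd hxA (h3 x hx)

/-- The trace of `A` on a pointed perfect set. -/
def Tr (T : Set (List Bool)) (A : Set (ℕ → Bool)) : Set (ℕ → Bool) :=
  {w | TLe (tc T) w ∧ br (tc T) w ∈ A}

theorem meas_of {A : Set (ℕ → Bool)}
    (h : ∀ T, PPT T → MissesCone (Tr T A) ∨ ContainsPP (Tr T A)) : PMeas A := by
  intro T hT
  rcases h T hT with ⟨c, hc⟩ | ⟨S, hS, hSA⟩
  · let d := join (tc T) c
    have hj : UCF d fun v => join d v := UCF.param.join UCF.id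
    have hG : UCF d fun v => br (tc T) (join d v) :=
      ((ucf_br (tc T)).mono (tLe_join_left (tc T) c)).comp hj
    obtain ⟨T', h1, -, h2⟩ := range_tree_inj hG
      (fun v => (tLe_join_left d v).trans (hT.tLe_code _)) (by
        intro v v' hv
        have h3 := congrArg od (hT.toPTree.br_injective hv)
        simpa using h3)
    refine ⟨T', h1, ?_, Or.inr ?_⟩
    · rw [h2]
      rintro _ ⟨v, rfl⟩
      exact hT.toPTree.br_mem _
    · rw [h2]
      rintro _ ⟨v, rfl⟩ hA
      have hd : TLe d (join d v) := tLe_join_left d v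
      exact hc (join d v) ((tLe_join_right (tc T) c).trans hd)
        ⟨(tLe_join_left (tc T) c).trans hd, hA⟩
  · let d := join (tc T) (tc S)
    have hG : UCF d fun v => br (tc T) (br (tc S) v) :=
      ((ucf_br (tc T)).mono (tLe_join_left _ _)).comp ((ucf_br (tc S)).mono (tLe_join_right _ _))
    obtain ⟨T', h1, -, h2⟩ := range_tree_inj hG
      (fun v => join_tLe (hT.tLe _) ((hS.tLe v).trans (hT.tLe_code _)))
      (hT.toPTree.br_injective.comp hS.toPTree.br_injective)
    refine ⟨T', h1, ?_, Or.inl ?_⟩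
    · rw [h2]
      rintro _ ⟨v, rfl⟩
      exact hT.toPTree.br_mem _
    · rw [h2]
      rintro _ ⟨v, rfl⟩
      exact (hSA (hS.toPTree.br_mem v)).2

end Pool.Agent.H660.TM
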