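import Pool.Agent.H660.TM.Gm

set_option autoImplicit false

/-! Games in which the players choose reals. -/

namespace Pool.Agent.H660.TM

open Encodable
open Pool.Agent.Helper227
open Pool.Agent.H685R3 (US WinsI WinsII Determined TuringInvariant hist hist_eq_pre)

/-- The real which codes a sequence of reals. -/
def jn (X : ℕ → ℕ → Bool) : ℕ → Bool := fun m => X m.unpair.1 m.unpair.2

/-- The player who moves at the positions congruent to `b` modulo 2 can force the play, an infinite
sequence of reals, into `Q`. -/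
def WinsReal (b : ℕ) (Q : Set (ℕ → ℕ → Bool)) : Prop :=
  ∃ s : List (ℕ → Bool) → ℕ → Bool, ∀ X : ℕ → ℕ → Bool,
    (∀ n, X (2 * n + b) = s ((List.range (2 * n + b)).map X)) → X ∈ Q

/-- The payoff set of the game with real moves. -/
def PlaysReal (P : (ℕ → Bool) → (ℕ → Bool) → Prop) : Set (ℕ → ℕ → Bool) :=
  {X | P (jn fun n => X (2 * n)) (jn fun n => X (2 * n + 1))}

theorem primrec_pair_left {f g : ℕ → ℕ} (hf : Primrec f) (hg : Primrec g) :
    Primrec fun m : ℕ => Nat.pair (f m) (g m) := Primrec₂.natPair.comp hf hg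

theorem tLe_jn_shift {X Y : ℕ → ℕ → Bool} {k : ℕ} (h : ∀ n m, X (n + k) (2 * m + 1) = Y n m) :
    TLe (jn Y) (jn X) := by
  have hf : Primrec fun m : ℕ => Nat.pair (m.unpair.1 + k) (2 * m.unpair.2 + 1) :=
    Primrec₂.natPair.comp
      (Primrec.nat_add.comp (Primrec.fst.comp Primrec.unpair) (Primrec.const k))
      (Primrec.succ.comp (Primrec.nat_mul.comp (Primrec.const 2)
        (Primrec.snd.comp Primrec.unpair)))
  refine tLe_of_computable hf.to_comp fun m => ?_
  simp [jn, h]

theorem tLe_jn_zero {X : ℕ → ℕ → Bool} {c : ℕ → Bool} (h : ∀ m, X 0 (2 * m) = c m) :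
    TLe c (jn X) := by
  have hf : Primrec fun m : ℕ => Nat.pair 0 (2 * m) :=
    Primrec₂.natPair.comp (Primrec.const 0) (Primrec.nat_mul.comp (Primrec.const 2) Primrec.id)
  refine tLe_of_computable hf.to_comp fun m => ?_
  simp [jn, h]

/-- The move which codes `c` and the last move. -/
def cpy (c : ℕ → Bool) (L : List (ℕ → Bool)) : ℕ → Bool := join c (L.getLastD fun _ => false)

theorem getLastD_range (X : ℕ → ℕ → Bool) (n : ℕ) :
    ((List.range (n + 1)).map X).getLastD (fun _ => false) = X n := by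
  rw [List.range_succ, List.map_append]
  simp

variable {P : (ℕ → Bool) → (ℕ → Bool) → Prop}

theorem real_winsI (h1 : IncI P) (h2 : DecII P) (h : ∃ c, ∀ x, TLe c x → P x x) :
    WinsReal 0 (PlaysReal P) := by
  obtain ⟨c, hc⟩ := h
  refine ⟨cpy c, fun X hX => ?_⟩
  have hX0 : ∀ m, X (2 * 0) (2 * m) = c m := by
    intro m
    have := hX 0
    simp only [Nat.mul_zero, Nat.add_zero] at this ⊢
    rw [this, cpy, join_even]
  have hX1 : ∀ n m, X (2 * (n + 1)) (2 * m + 1) = X (2 * n + 1) m := by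
    intro n m
    have h3 := hX (n + 1)
    rw [Nat.add_zero] at h3
    rw [h3, cpy, join_odd, show 2 * (n + 1) = (2 * n + 1) + 1 by ring, getLastD_range]
  have h3 : TLe c (jn fun n => X (2 * n)) := tLe_jn_zero (X := fun n => X (2 * n)) hX0
  have h4 : TLe (jn fun n => X (2 * n + 1)) (jn fun n => X (2 * n)) :=
    tLe_jn_shift (X := fun n => X (2 * n)) (Y := fun n => X (2 * n + 1)) (k := 1) hX1
  exact h2 _ _ _ h4 (hc _ h3)

theorem real_winsII (h1 : IncI P) (h2 : DecII P) (h : ∃ c, ∀ x, TLe c x → ¬ P x x) :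
    WinsReal 1 (PlaysReal P)ᶜ := by
  obtain ⟨c, hc⟩ := h
  refine ⟨cpy c, fun X hX => ?_⟩
  have hX0 : ∀ m, X (2 * 0 + 1) (2 * m) = c m := by
    intro m
    rw [hX 0, cpy, join_even]
  have hX1 : ∀ n m, X (2 * n + 1) (2 * m + 1) = X (2 * n) m := by
    intro n m
    rw [hX n, cpy, join_odd, getLastD_range]
  have h3 : TLe c (jn fun n => X (2 * n + 1)) := tLe_jn_zero (X := fun n => X (2 * n + 1)) hX0
  have h4 : TLe (jn fun n => X (2 * n)) (jn fun n => X (2 * n + 1)) :=
    tLe_jn_shift (X := fun n => X (2 * n + 1)) (Y := fun n => X (2 * n)) (k := 0)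
      fun n m => by simpa using hX1 n m
  intro hP
  exact hc _ h3 (h1 _ _ _ h4 hP)

/-- The game determined by two strategies for reals. -/
def both (s t : List (ℕ → Bool) → ℕ → Bool) : ℕ → List (ℕ → Bool)
  | 0 => []
  | n + 1 => both s t n ++ [if n % 2 = 0 then s (both s t n) else t (both s t n)]

theorem exists_play (s t : List (ℕ → Bool) → ℕ → Bool) : ∃ X : ℕ → ℕ → Bool,
    (∀ n, X (2 * n) = s ((List.range (2 * n)).map X)) ∧
      ∀ n, X (2 * n + 1) = t ((List.range (2 * n + 1)).map X) := by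
  let X : ℕ → ℕ → Bool := fun n => if n % 2 = 0 then s (both s t n) else t (both s t n)
  have h1 : ∀ n, (List.range n).map X = both s t n := by
    intro n
    induction n with
    | zero => rfl
    | succ n ih => rw [List.range_succ, List.map_append, ih]; rfl
  refine ⟨X, fun n => ?_, fun n => ?_⟩
  · rw [h1]
    simp only [X]
    rw [if_pos (by omega)]
  · rw [h1]
    simp only [X]
    rw [if_neg (by omega)]

theorem real_not_both (h : WinsReal 0 (PlaysReal P)) (h' : WinsReal 1 (PlaysReal P)ᶜ) : False := by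
  obtain ⟨s, hs⟩ := h
  obtain ⟨t, ht⟩ := h'
  obtain ⟨X, h1, h2⟩ := exists_play s t
  exact ht X h2 (hs X h1)

theorem not_both_cones {B : Set (ℕ → Bool)} (h : ∃ c, ∀ x, TLe c x → x ∈ B)
    (h' : ∃ c, ∀ x, TLe c x → x ∉ B) : False := by
  obtain ⟨c, hc⟩ := h
  obtain ⟨d, hd⟩ := h'
  exact hd (join c d) (tLe_join_right c d) (hc (join c d) (tLe_join_left c d))

/-- The game with real moves is determined as soon as the diagonal is. -/
theorem real_iff (h1 : IncI P) (h2 : DecII P) (hD : Determined {x | P x x}) :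
    (WinsReal 0 (PlaysReal P) ↔ WinsI {x | P x x}) ∧
      (WinsReal 1 (PlaysReal P)ᶜ ↔ WinsII {x | P x x}) := by
  have hI := ti_winsI (diag_invariant h1 h2)
  have hII := ti_winsII (diag_invariant h1 h2)
  have h3 : WinsI {x | P x x} → WinsReal 0 (PlaysReal P) := fun h => real_winsI h1 h2 (hI.1 h)
  have h4 : WinsII {x | P x x} → WinsReal 1 (PlaysReal P)ᶜ := fun h => real_winsII h1 h2 (hII.1 h)
  refine ⟨⟨fun h => ?_, h3⟩, ⟨fun h => ?_, h4⟩⟩
  · rcases hD with h5 | h5
    · exact h5
    · exact (real_not_both h (h4 h5)).elim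
  · rcases hD with h5 | h5
    · exact (real_not_both (h3 h5) h).elim
    · exact h5

end Pool.Agent.H660.TM
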