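import Pool.Agent.H660.TM.UC

set_option autoImplicit false

/-! Perfect trees, pointed trees, ranges of computable maps. -/

namespace Pool.Agent.H660.TM

open Encodable
open Pool.Agent.Helper227
open Pool.Agent.H685R3 (US)

/-- The tree `T` of finite binary sequences is perfect. -/
structure PTree (T : Set (List Bool)) : Prop where
  nil : [] ∈ T
  pref : ∀ s t, s ++ t ∈ T → s ∈ T
  split : ∀ s ∈ T, ∃ t, s ++ t ++ [false] ∈ T ∧ s ++ t ++ [true] ∈ T

/-- The infinite branches of `T`. -/
def Body (T : Set (List Bool)) : Set (ℕ → Bool) := {x | ∀ n, pre x n ∈ T}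

open Classical in
/-- The characteristic function of `T`. -/
noncomputable def tc (T : Set (List Bool)) : ℕ → Bool := fun n => decide (∃ s ∈ T, encode s = n)

/-- A pointed perfect tree: every branch computes it. -/
structure PPT (T : Set (List Bool)) : Prop extends PTree T where
  pointed : ∀ x ∈ Body T, TLe (tc T) x

theorem tc_encode {T : Set (List Bool)} {s : List Bool} : tc T (encode s) = true ↔ s ∈ T := by
  simp [tc]

theorem tc_encode_false {T : Set (List Bool)} {s : List Bool} :
    tc T (encode s) = false ↔ s ∉ T := by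
  simp [tc]

theorem si_mem (T : Set (List Bool)) : SI (tc T) fun s => s ∈ T :=
  (SI.query.comp (f := fun s : List Bool => (encode s, true))
    (Primrec.encode.pair (Primrec.const true))).of_eq fun _ => tc_encode

theorem si_not_mem (T : Set (List Bool)) : SI (tc T) fun s => s ∉ T :=
  (SI.query.comp (f := fun s : List Bool => (encode s, false))
    (Primrec.encode.pair (Primrec.const false))).of_eq fun _ => tc_encode_false

theorem tc_le {T : Set (List Bool)} {c : ℕ → Bool} (h1 : SI c fun s => s ∈ T)
    (h2 : SI c fun s => s ∉ T) : TLe (tc T) c := by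
  rw [tLe_iff_SI]
  have h3 : SI c fun x : ℕ × Bool => (∃ s : List Bool, (encode s = x.1 ∧ x.2 = true) ∧ s ∈ T) ∨
      (¬ (decode (α := List Bool) x.1).map encode = some x.1 ∧ x.2 = false) ∨
      ∃ s : List Bool, (encode s = x.1 ∧ x.2 = false) ∧ s ∉ T := by
    refine SI.or (SI.ex (p := fun (x : ℕ × Bool) (s : List Bool) =>
      (encode s = x.1 ∧ x.2 = true) ∧ s ∈ T) (SI.and (SI.of_prim (PrimrecPred.and ?_ ?_)) ?_))
      (SI.or (SI.of_prim (PrimrecPred.and (PrimrecPred.not ?_) ?_))
      (SI.ex (p := fun (x : ℕ × Bool) (s : List Bool) =>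
      (encode s = x.1 ∧ x.2 = false) ∧ s ∉ T)
      (SI.and (SI.of_prim (PrimrecPred.and ?_ ?_)) ?_)))
    · exact Primrec.eq.comp (Primrec.encode.comp Primrec.snd) (Primrec.fst.comp Primrec.fst)
    · exact Primrec.eq.comp (Primrec.snd.comp Primrec.fst) (Primrec.const true)
    · exact h1.comp Primrec.snd
    · refine Primrec.eq.comp (Primrec.option_map (Primrec.decode.comp Primrec.fst) ?_)
        (Primrec.option_some.comp Primrec.fst)
      exact Primrec.encode.comp Primrec.snd
    · exact Primrec.eq.comp Primrec.snd (Primrec.const false)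
    · exact Primrec.eq.comp (Primrec.encode.comp Primrec.snd) (Primrec.fst.comp Primrec.fst)
    · exact Primrec.eq.comp (Primrec.snd.comp Primrec.fst) (Primrec.const false)
    · exact h2.comp Primrec.snd
  refine h3.of_eq fun x => ?_
  obtain ⟨n, b⟩ := x
  simp only
  by_cases hd : ∃ s : List Bool, encode s = n
  · obtain ⟨s, rfl⟩ := hd
    have h4 : ∀ s' : List Bool, encode s' = encode s ↔ s' = s := fun s' => encode_inj
    simp only [encodek, Option.map_some, not_true_eq_false, false_and, false_or, h4]
    by_cases hs : s ∈ T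
    · rw [tc_encode.2 hs]
      constructor
      · rintro (⟨s', ⟨rfl, h6⟩, -⟩ | ⟨s', ⟨rfl, -⟩, h6⟩)
        · exact h6.symm
        · exact absurd hs h6
      · rintro rfl
        exact Or.inl ⟨s, ⟨rfl, rfl⟩, hs⟩
    · rw [tc_encode_false.2 hs]
      constructor
      · rintro (⟨s', ⟨rfl, -⟩, h6⟩ | ⟨s', ⟨rfl, h6⟩, -⟩)
        · exact absurd h6 hs
        · exact h6.symm
      · rintro rfl
        exact Or.inr ⟨s, ⟨rfl, rfl⟩, hs⟩
  · have h4 : tc T n = false := by
      simp only [tc, decide_eq_false_iff_not, not_exists, not_and]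
      intro s _ hs
      exact hd ⟨s, hs⟩
    have h5 : ¬ (decode (α := List Bool) n).map encode = some n := by
      intro h
      obtain ⟨s, -, hs⟩ := Option.map_eq_some_iff.1 h
      exact hd ⟨s, hs⟩
    rw [h4]
    constructor
    · rintro (⟨s, ⟨h6, -⟩, -⟩ | ⟨-, h6⟩ | ⟨s, ⟨h6, -⟩, -⟩)
      · exact absurd ⟨s, h6⟩ hd
      · exact h6.symm
      · exact absurd ⟨s, h6⟩ hd
    · rintro rfl
      exact Or.inr (Or.inl ⟨h5, rfl⟩)

/-- The tree as a family of bits. -/
theorem us_code : US fun B (x : List Bool × Bool) => B (encode x.1) = x.2 :=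
  US.query.comp (f := fun x : List Bool × Bool => (encode x.1, x.2))
    ((Primrec.encode.comp Primrec.fst).pair Primrec.snd)

/-- König's lemma. -/
theorem konig {P : List Bool → Prop} (h1 : ∀ s t, P s → P (s ++ t))
    (h2 : ∀ w : ℕ → Bool, ∃ n, P (pre w n)) : ∃ m, ∀ s : List Bool, s.length = m → P s := by
  by_contra hcon
  push Not at hcon
  let Bad : List Bool → Prop := fun s => ∀ m, ∃ t : List Bool, t.length = m ∧ ¬ P (s ++ t)
  have h0 : Bad [] := fun m => by
    obtain ⟨t, h3, h4⟩ := hcon m
    exact ⟨t, h3, by simpa using h4⟩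
  have hs : ∀ s, Bad s → ∃ b, Bad (s ++ [b]) := by
    intro s hs
    by_contra hc
    push Not at hc
    have h3 := hc false
    have h4 := hc true
    simp only [Bad] at h3 h4
    push Not at h3 h4
    obtain ⟨m0, h3⟩ := h3
    obtain ⟨m1, h4⟩ := h4
    obtain ⟨t, h5, h6⟩ := hs (m0 + m1 + 1)
    cases t with
    | nil => simp at h5
    | cons b t =>
      have h7 : t.length = m0 + m1 := by simpa using h5
      cases b
      · have h8 := h3 (t.take m0) (by simp [h7])
        have h9 := h1 _ (t.drop m0) h8
        simp only [List.append_assoc, List.cons_append,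
          List.take_append_drop] at h9
        exact h6 h9
      · have h8 := h4 (t.take m1) (by simp [h7])
        have h9 := h1 _ (t.drop m1) h8
        simp only [List.append_assoc, List.cons_append,
          List.take_append_drop] at h9
        exact h6 h9
  choose! g hg using hs
  let path : ℕ → List Bool := fun n => Nat.rec [] (fun _ s => s ++ [g s]) n
  have hb : ∀ n, Bad (path n) := by
    intro n
    induction n with
    | zero => exact h0
    | succ n ih => exact hg _ ih
  let w : ℕ → Bool := fun n => g (path n)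
  have hw : ∀ n, pre w n = path n := by
    intro n
    induction n with
    | zero => rfl
    | succ n ih => rw [pre_succ, ih]
  obtain ⟨n, hn⟩ := h2 w
  obtain ⟨t, h3, h4⟩ := hb n 0
  rw [hw] at hn
  rw [List.length_eq_zero_iff.1 h3, List.append_nil] at h4
  exact h4 hn

/-- The sequence `s` followed by zeros. -/
def ext (s : List Bool) : ℕ → Bool := fun n => s.getD n false

theorem pre_ext (s : List Bool) : pre (ext s) s.length = s := by
  refine List.ext_getElem (by simp) fun i h1 h2 => ?_
  rw [getElem_pre]
  simp [ext, List.getD, h2]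

theorem pre_eq_iff {x y : ℕ → Bool} {k : ℕ} : pre x k = pre y k ↔ ∀ i < k, x i = y i := by
  constructor
  · intro h i hi
    have h1 : (pre x k)[i]? = (pre y k)[i]? := by rw [h]
    rw [pre_getElem? _ _ _ hi, pre_getElem? _ _ _ hi] at h1
    exact Option.some.inj h1
  · intro h
    refine List.ext_getElem (by simp) fun i h1 h2 => ?_
    rw [getElem_pre, getElem_pre]
    exact h i (by simpa using h1)

theorem pre_eq_mono {x y : ℕ → Bool} {k l : ℕ} (h : k ≤ l) (h1 : pre x l = pre y l) :
    pre x k = pre y k :=
  pre_eq_iff.2 fun i hi => pre_eq_iff.1 h1 i (by omega)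

theorem pre_join {c w w' : ℕ → Bool} {n : ℕ} (h : pre w n = pre w' n) :
    pre (join c w) (2 * n) = pre (join c w') (2 * n) := by
  refine pre_eq_iff.2 fun i hi => ?_
  rcases Nat.even_or_odd' i with ⟨k, rfl | rfl⟩
  · rw [join_even, join_even]
  · rw [join_odd, join_odd]
    exact pre_eq_iff.1 h k (by omega)

/-- Representation by finite sequences. -/
theorem UC.strings {α : Type*} [Primcodable α] {c : ℕ → Bool} {p : (ℕ → Bool) → α → Prop}
    (hp : UC c p) : ∃ R : List Bool → α → Prop, SI c (fun x : List Bool × α => R x.1 x.2) ∧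
      (∀ s t a, R s a → R (s ++ t) a) ∧ ∀ w a, p w a ↔ ∃ n, R (pre w n) a := by
  obtain ⟨q, ⟨E, hE, mE, eE⟩, e⟩ := hp
  refine ⟨fun s a => E (pre (join c (ext s)) (2 * s.length), a), ?_, ?_, ?_⟩
  · have h1 : SI c fun x : List Bool × α => ∃ r : List Bool, (r.length = 2 * x.1.length ∧
        E (r, x.2)) ∧ ∀ i < r.length, (i % 2 = 0 ∧ c (i / 2) = r.getD i false) ∨
          (¬ i % 2 = 0 ∧ x.1.getD (i / 2) false = r.getD i false) := by
      refine SI.ex (p := fun (x : List Bool × α) (r : List Bool) => (r.length = 2 * x.1.length ∧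
        E (r, x.2)) ∧ ∀ i < r.length, (i % 2 = 0 ∧ c (i / 2) = r.getD i false) ∨
          (¬ i % 2 = 0 ∧ x.1.getD (i / 2) false = r.getD i false))
        (SI.and (SI.and (SI.of_prim ?_) (SI.of_s1 (hE.comp ?_))) ?_)
      · exact Primrec.eq.comp (Primrec.list_length.comp Primrec.snd)
          (Primrec.nat_mul.comp (Primrec.const 2)
            (Primrec.list_length.comp (Primrec.fst.comp Primrec.fst)))
      · exact Primrec.snd.pair (Primrec.snd.comp Primrec.fst)
      · refine SI.all_lt (α := (List Bool × α) × List Bool) (p := fun y i =>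
          (i % 2 = 0 ∧ c (i / 2) = y.2.getD i false) ∨
          (¬ i % 2 = 0 ∧ y.1.1.getD (i / 2) false = y.2.getD i false))
          (f := fun y => y.2.length) ?_ (Primrec.list_length.comp Primrec.snd)
        have hm : PrimrecPred fun y : ((List Bool × α) × List Bool) × ℕ => y.2 % 2 = 0 :=
          Primrec.eq.comp (Primrec.nat_mod.comp Primrec.snd (Primrec.const 2)) (Primrec.const 0)
        refine SI.or (SI.and (SI.of_prim hm) ?_) (SI.and (SI.of_prim hm.not) (SI.of_prim ?_))
        · exact SI.query.comp (f := fun y : ((List Bool × α) × List Bool) × ℕ =>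
            (y.2 / 2, y.1.2.getD y.2 false)) ((Primrec.nat_div.comp Primrec.snd
              (Primrec.const 2)).pair ((Primrec.list_getD false).comp
                (Primrec.snd.comp Primrec.fst) Primrec.snd))
        · exact Primrec.eq.comp ((Primrec.list_getD false).comp
            (Primrec.fst.comp (Primrec.fst.comp Primrec.fst))
            (Primrec.nat_div.comp Primrec.snd (Primrec.const 2)))
            ((Primrec.list_getD false).comp (Primrec.snd.comp Primrec.fst) Primrec.snd)
    refine h1.of_eq fun x => ?_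
    obtain ⟨s, a⟩ := x
    constructor
    · rintro ⟨r, ⟨h2, h3⟩, h4⟩
      have : pre (join c (ext s)) (2 * s.length) = r := by
        refine List.ext_getElem (by simp [h2]) fun i h5 h6 => ?_
        rw [getElem_pre, ← List.getD_eq_getElem _ false h6]
        rcases h4 i h6 with ⟨h7, h8⟩ | ⟨h7, h8⟩
        · rw [← h8]
          unfold join
          rw [if_pos h7]
        · rw [← h8]
          unfold join
          rw [if_neg h7]
          rfl
      rw [this]
      exact h3
    · intro h
      refine ⟨pre (join c (ext s)) (2 * s.length), ⟨by simp, h⟩, fun i hi => ?_⟩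
      rw [pre_getD _ _ _ _ (by simpa using hi)]
      unfold join
      by_cases h7 : i % 2 = 0
      · exact Or.inl ⟨h7, by rw [if_pos h7]⟩
      · exact Or.inr ⟨h7, by rw [if_neg h7]; rfl⟩
  · intro s t a h
    refine mE _ _ _ ?_ h
    have h1 : pre (join c (ext s)) (2 * s.length) = pre (join c (ext (s ++ t))) (2 * s.length) := by
      refine pre_join (pre_eq_iff.2 fun i hi => ?_)
      simp only [ext]
      rw [List.getD_append _ _ _ _ hi]
    rw [h1]
    exact pre_prefix _ (by simp)
  · intro w a
    rw [e, eE]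
    have h1 : ∀ n, pre (join c (ext (pre w n))) (2 * (pre w n).length) =
        pre (join c w) (2 * n) := by
      intro n
      rw [length_pre]
      refine pre_join ?_
      have := pre_ext (pre w n)
      rwa [length_pre] at this
    constructor
    · rintro ⟨s, hs⟩
      refine ⟨s, ?_⟩
      beta_reduce
      rw [h1]
      exact mE _ _ _ (pre_prefix _ (by omega)) hs
    · rintro ⟨n, hn⟩
      rw [h1] at hn
      exact ⟨_, hn⟩

theorem UCF.cont {c : ℕ → Bool} {G : (ℕ → Bool) → ℕ → Bool} (h : UCF c G) (w : ℕ → Bool) (k : ℕ) :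
    ∃ n, ∀ w', pre w' n = pre w n → pre (G w') k = pre (G w) k := by
  obtain ⟨R, h1, h2, h3⟩ := UC.strings h
  have h4 : ∀ i, ∃ n, R (pre w n) (i, G w i) := fun i => (h3 w (i, G w i)).1 rfl
  choose N hN using h4
  refine ⟨(Finset.range k).sup N, fun w' hw' => pre_eq_iff.2 fun i hi => ?_⟩
  refine (h3 w' (i, G w i)).2 ⟨N i, ?_⟩
  rw [pre_eq_mono (Finset.le_sup (f := N) (Finset.mem_range.2 hi)) hw']
  exact hN i

end Pool.Agent.H660.TM
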