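import Pool.Agent.H660.TM.Rng

set_option autoImplicit false

/-! The range of a computable map which is above its parameter is a pointed perfect set. -/

namespace Pool.Agent.H660.TM

open Encodable
open Pool.Agent.Helper227
open Pool.Agent.H685R3 (US)

/-- All binary sequences of a given length. -/
def strs (m : ℕ) : List (List Bool) :=
  Nat.rec [[]] (fun _ L => L.flatMap fun s => [s ++ [false], s ++ [true]]) m

theorem primrec_strs : Primrec strs := by
  refine Primrec.nat_rec₁ (f := fun (_ : ℕ) (L : List (List Bool)) =>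
    L.flatMap fun s => [s ++ [false], s ++ [true]]) _ ?_
  refine Primrec.list_flatMap Primrec.snd ?_
  refine Primrec.list_cons.comp ?_ (Primrec.list_cons.comp ?_ (Primrec.const _))
  · exact Primrec.list_append.comp Primrec.snd (Primrec.const _)
  · exact Primrec.list_append.comp Primrec.snd (Primrec.const _)

theorem mem_strs {m : ℕ} {s : List Bool} : s ∈ strs m ↔ s.length = m := by
  induction m generalizing s with
  | zero => simp [strs]
  | succ m ih =>
    have h1 : strs (m + 1) = (strs m).flatMap fun s => [s ++ [false], s ++ [true]] := rfl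
    rw [h1]
    simp only [List.mem_flatMap, List.mem_cons, List.not_mem_nil, or_false]
    constructor
    · rintro ⟨t, h2, rfl | rfl⟩
      · simp [ih.1 h2]
      · simp [ih.1 h2]
    · intro h
      rcases List.eq_nil_or_concat s with rfl | ⟨t, b, rfl⟩
      · simp at h
      · refine ⟨t, ih.2 (by simpa using h), ?_⟩
        cases b <;> simp

theorem not_countable_cyl (w : ℕ → Bool) (n : ℕ) : ¬ {w' : ℕ → Bool | pre w' n = pre w n}.Countable := by
  intro h
  let f : (ℕ → Bool) → ℕ → Bool := fun v i => if i < n then w i else v (i - n)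
  have hf : Function.Injective f := by
    intro v v' h1
    funext i
    have h2 := congrFun h1 (n + i)
    simpa [f] using h2
  have h1 : (f ⁻¹' {w' : ℕ → Bool | pre w' n = pre w n}).Countable :=
    h.preimage_of_injOn hf.injOn
  have h2 : f ⁻¹' {w' : ℕ → Bool | pre w' n = pre w n} = Set.univ := by
    refine Set.eq_univ_of_forall fun v => ?_
    refine pre_eq_iff.2 fun i hi => ?_
    simp [f, hi]
  rw [h2, Set.countable_univ_iff] at h1
  have h4 : Function.Injective fun (s : Set ℕ) (n : ℕ) => (open Classical in decide (n ∈ s)) := by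
    intro s t hst
    ext n
    have := congrFun hst n
    simpa using this
  have h5 : Countable (Set ℕ) := h4.countable
  obtain ⟨g, hg⟩ := exists_injective_nat (Set ℕ)
  exact Function.cantor_injective g hg

/-- Two different points of a cylinder. -/
theorem exists_ne_of_fibers {G : (ℕ → Bool) → ℕ → Bool} (h : ∀ y, {w | G w = y}.Countable)
    (w : ℕ → Bool) (n : ℕ) : ∃ w', pre w' n = pre w n ∧ G w' ≠ G w := by
  by_contra hcon
  push Not at hcon
  exact not_countable_cyl w n ((h (G w)).mono fun w' hw' => hcon w' hw')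

theorem sub_append {s : List Bool} {x : ℕ → Bool} (h : pre x s.length = s) (b : Bool)
    (hb : x s.length = b) : pre x (s ++ [b]).length = s ++ [b] := by
  rw [List.length_append, List.length_singleton, pre_succ, h, hb]

/-- The first difference of two reals. -/
theorem first_diff {x y : ℕ → Bool} (h : x ≠ y) : ∃ n, pre x n = pre y n ∧ x n ≠ y n := by
  obtain ⟨n, hn⟩ := Function.ne_iff.1 h
  classical
  refine ⟨Nat.find (⟨n, hn⟩ : ∃ n, x n ≠ y n), pre_eq_iff.2 fun i hi => ?_,
    Nat.find_spec (⟨n, hn⟩ : ∃ n, x n ≠ y n)⟩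
  by_contra hc
  exact Nat.find_min (⟨n, hn⟩ : ∃ n, x n ≠ y n) hi hc

/-- The tree of all initial segments of the values of `G`. -/
def Rt (G : (ℕ → Bool) → ℕ → Bool) : Set (List Bool) := {t | ∃ w, pre (G w) t.length = t}

theorem ptree_rt {c : ℕ → Bool} {G : (ℕ → Bool) → ℕ → Bool} (hG : UCF c G)
    (h : ∀ y, {w | G w = y}.Countable) : PTree (Rt G) where
  nil := ⟨fun _ => false, rfl⟩
  pref s t := by
    rintro ⟨w, hw⟩
    refine ⟨w, ?_⟩
    have h1 := congrArg (List.take s.length) hw
    rw [take_pre _ _ _ (by simp), List.take_left] at h1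
    exact h1
  split s := by
    rintro ⟨w, hw⟩
    obtain ⟨n, hn⟩ := hG.cont w s.length
    obtain ⟨w', h1, h2⟩ := exists_ne_of_fibers h w n
    obtain ⟨k, h3, h4⟩ := first_diff h2
    have h5 := hn w' h1
    have hk : s.length ≤ k := by
      by_contra hc
      exact h4 (pre_eq_iff.1 h5 k (by omega))
    have h6 : s ++ (pre (G w) k).drop s.length = pre (G w) k := by
      conv_rhs => rw [← List.take_append_drop s.length (pre (G w) k)]
      rw [take_pre _ _ _ hk, hw]
    refine ⟨(pre (G w) k).drop s.length, ?_⟩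
    rw [h6]
    have h7 : ∀ b, G w k = b → pre (G w) k ++ [b] ∈ Rt G := fun b hb =>
      ⟨w, by rw [← hb, ← pre_succ, length_pre]⟩
    have h8 : ∀ b, G w' k = b → pre (G w) k ++ [b] ∈ Rt G := fun b hb =>
      ⟨w', by rw [← h3, ← hb, ← pre_succ, length_pre]⟩
    cases hb : G w k
    · refine ⟨h7 _ hb, h8 true ?_⟩
      cases hb' : G w' k
      · rw [hb, hb'] at h4
        exact absurd rfl h4
      · rfl
    · refine ⟨h8 false ?_, h7 _ hb⟩
      cases hb' : G w' k
      · rfl
      · rw [hb, hb'] at h4
        exact absurd rfl h4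

theorem rt_le {c : ℕ → Bool} {G : (ℕ → Bool) → ℕ → Bool} (hG : UCF c G) : TLe (tc (Rt G)) c := by
  obtain ⟨R, h1, h2, h3⟩ := UC.strings hG
  have hR : SI c fun y : (List Bool × List Bool) × (ℕ × Bool) => R y.1.2 (y.2.1, y.2.2) :=
    h1.comp (f := fun y : (List Bool × List Bool) × (ℕ × Bool) => (y.1.2, (y.2.1, y.2.2)))
      ((Primrec.snd.comp Primrec.fst).pair Primrec.snd)
  have hext : ∀ (s : List Bool) (i : ℕ) (b : Bool), R s (i, b) → G (ext s) i = b := by
    intro s i b h
    refine (h3 (ext s) (i, b)).2 ⟨s.length, ?_⟩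
    rw [pre_ext]
    exact h
  have hex : ∀ w k, ∃ n, ∀ i < k, R (pre w n) (i, G w i) := by
    intro w k
    have h4 : ∀ i, ∃ n, R (pre w n) (i, G w i) := fun i => (h3 w (i, G w i)).1 rfl
    choose N hN using h4
    refine ⟨(Finset.range k).sup N, fun i hi => ?_⟩
    have h5 := Finset.le_sup (f := N) (Finset.mem_range.2 hi)
    obtain ⟨d, hd⟩ := pre_prefix w h5
    rw [← hd]
    exact h2 _ _ _ (hN i)
  refine tc_le ?_ ?_
  · have h4 : SI c fun t : List Bool => ∃ s : List Bool, ∀ i < t.length,
        R s (i, t.getD i false) := by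
      refine SI.ex (p := fun (t s : List Bool) => ∀ i < t.length, R s (i, t.getD i false))
        (SI.all_lt (α := List Bool × List Bool) (p := fun y i => R y.2 (i, y.1.getD i false))
          (f := fun y => y.1.length) ?_ (Primrec.list_length.comp Primrec.fst))
      exact hR.comp (f := fun y : (List Bool × List Bool) × ℕ => (y.1, (y.2, y.1.1.getD y.2 false)))
        (Primrec.fst.pair (Primrec.snd.pair ((Primrec.list_getD false).comp
          (Primrec.fst.comp Primrec.fst) Primrec.snd)))
    refine h4.of_eq fun t => ?_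
    constructor
    · rintro ⟨s, hs⟩
      refine ⟨ext s, ?_⟩
      refine List.ext_getElem (by simp) fun i h5 h6 => ?_
      rw [getElem_pre, hext s i _ (hs i h6), List.getD_eq_getElem _ _ h6]
    · rintro ⟨w, hw⟩
      obtain ⟨n, hn⟩ := hex w t.length
      refine ⟨pre w n, fun i hi => ?_⟩
      have h5 : t.getD i false = G w i := by
        rw [← hw, pre_getD _ _ _ _ hi]
      rw [h5]
      exact hn i hi
  · have h4 : SI c fun t : List Bool => ∃ m : ℕ, ∀ s ∈ strs m, ∃ i : ℕ, i < t.length ∧
        R s (i, !(t.getD i false)) := by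
      refine SI.ex (p := fun (t : List Bool) (m : ℕ) => ∀ s ∈ strs m, ∃ i : ℕ, i < t.length ∧
        R s (i, !(t.getD i false))) (SI.all_mem (α := List Bool × ℕ)
          (p := fun y (s : List Bool) => ∃ i : ℕ, i < y.1.length ∧ R s (i, !(y.1.getD i false)))
          (f := fun y => strs y.2) ?_ (primrec_strs.comp Primrec.snd))
      refine SI.ex (α := (List Bool × ℕ) × List Bool) (p := fun y (i : ℕ) =>
        i < y.1.1.length ∧ R y.2 (i, !(y.1.1.getD i false))) (SI.and (SI.of_prim ?_) ?_)
      · exact Primrec.nat_lt.comp Primrec.snd (Primrec.list_length.comp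
          (Primrec.fst.comp (Primrec.fst.comp Primrec.fst)))
      · exact hR.comp (f := fun y : ((List Bool × ℕ) × List Bool) × ℕ =>
          ((y.1.1.1, y.1.2), (y.2, !(y.1.1.1.getD y.2 false))))
          (((Primrec.fst.comp (Primrec.fst.comp Primrec.fst)).pair
            (Primrec.snd.comp Primrec.fst)).pair (Primrec.snd.pair
            (Primrec.not.comp ((Primrec.list_getD false).comp
              (Primrec.fst.comp (Primrec.fst.comp Primrec.fst)) Primrec.snd))))
    refine h4.of_eq fun t => ?_
    constructor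
    · rintro ⟨m, hm⟩ ⟨w, hw⟩
      obtain ⟨i, hi, h5⟩ := hm (pre w m) (mem_strs.2 (length_pre w m))
      have h6 : G w i = !(t.getD i false) := (h3 w _).2 ⟨m, h5⟩
      have h7 : t.getD i false = G w i := by
        rw [← hw, pre_getD _ _ _ _ hi]
      rw [← h7] at h6
      cases h8 : t.getD i false <;> rw [h8] at h6 <;> cases h6
    · intro ht
      obtain ⟨m, hm⟩ := konig (P := fun s => ∃ i : ℕ, i < t.length ∧ R s (i, !(t.getD i false)))
        (fun s s' ⟨i, h5, h6⟩ => ⟨i, h5, h2 _ _ _ h6⟩) fun w => by
          have h5 : ∃ i < t.length, G w i ≠ t.getD i false := by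
            by_contra hc
            push Not at hc
            refine ht ⟨w, List.ext_getElem (by simp) fun i h5 h6 => ?_⟩
            rw [getElem_pre, hc i h6, List.getD_eq_getElem _ _ h6]
          obtain ⟨i, hi, h6⟩ := h5
          obtain ⟨n, hn⟩ := (h3 w (i, G w i)).1 rfl
          have h7 : G w i = !(t.getD i false) := by
            revert h6
            cases G w i <;> cases t.getD i false <;> simp
          rw [h7] at hn
          exact ⟨n, i, hi, hn⟩
      exact ⟨m, fun s hs => hm s (mem_strs.1 hs)⟩

theorem body_rt {c : ℕ → Bool} {G : (ℕ → Bool) → ℕ → Bool} (hG : UCF c G) :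
    Body (Rt G) = Set.range G := by
  ext x
  constructor
  · intro hx
    by_contra hcon
    have h1 : ∀ w, ∃ n, pre (G w) n ≠ pre x n := by
      intro w
      by_contra hc
      push Not at hc
      refine hcon ⟨w, funext fun n => ?_⟩
      exact pre_eq_iff.1 (hc (n + 1)) n (Nat.lt_succ_self n)
    obtain ⟨m, hm⟩ := konig (P := fun s => ∃ n, ∀ w, pre w s.length = s → pre (G w) n ≠ pre x n)
      (fun s t ⟨n, hn⟩ => ⟨n, fun w hw => hn w (by
        have := congrArg (List.take s.length) hw
        rwa [take_pre _ _ _ (by simp), List.take_left] at this)⟩) fun w => by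
      obtain ⟨n, hn⟩ := h1 w
      obtain ⟨k, hk⟩ := hG.cont w n
      refine ⟨k, n, fun w' hw' => ?_⟩
      rw [length_pre] at hw'
      rw [hk w' hw']
      exact hn
    choose! N hN using hm
    have hfin : {s : List Bool | s.length = m}.Finite := List.finite_length_eq Bool m
    obtain ⟨w, hw⟩ := hx (hfin.toFinset.sup N)
    rw [length_pre] at hw
    have h2 := hN (pre w m) (length_pre w m) w (by rw [length_pre])
    refine h2 (pre_eq_mono ?_ hw)
    exact Finset.le_sup (f := N) (hfin.mem_toFinset.2 (length_pre w m))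
  · rintro ⟨w, rfl⟩ n
    exact ⟨w, by rw [length_pre]⟩

/-- The range of a computable map which is above its parameter is a pointed perfect set. -/
theorem range_tree {c : ℕ → Bool} {G : (ℕ → Bool) → ℕ → Bool} (hG : UCF c G)
    (hc : ∀ w, TLe c (G w)) (h : ∀ y, {w | G w = y}.Countable) :
    ∃ T, PPT T ∧ TLe (tc T) c ∧ Body T = Set.range G := by
  refine ⟨Rt G, ⟨ptree_rt hG h, fun x hx => ?_⟩, rt_le hG, body_rt hG⟩
  rw [body_rt hG] at hx
  obtain ⟨w, rfl⟩ := hx
  exact (rt_le hG).trans (hc w)

theorem range_tree_inj {c : ℕ → Bool} {G : (ℕ → Bool) → ℕ → Bool} (hG : UCF c G)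
    (hc : ∀ w, TLe c (G w)) (h : Function.Injective G) :
    ∃ T, PPT T ∧ TLe (tc T) c ∧ Body T = Set.range G :=
  range_tree hG hc fun _ => Set.Subsingleton.countable fun _ h1 _ h2 => h (h1.trans h2.symm)

end Pool.Agent.H660.TM
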