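import Pool.Agent.H660.TM.Br
import Pool.Graph.R_seed8.Y588.PD.Fn

set_option autoImplicit false

/-! Thinning of perfect sets, and sets which meet all degrees of a cone. -/

namespace Pool.Agent.H660.TM

open Encodable
open Pool.Agent.Helper227
open Pool.Agent.H685R3 (US)
open Pool.Agent.Y588.PD (Fam)
open Nat.Partrec (Code)

/-- A family of computable partial functionals which contains all Turing reductions. (The proof is
the one of `Pool.Agent.Y588.PD.exists_fam`, with the complexity added.) -/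
theorem exists_fam' : ∃ E : ℕ → List Bool → ℕ → Bool → Prop, Fam E ∧
    (∀ e, S1 fun x : List Bool × (ℕ × Bool) => E e x.1 x.2.1 x.2.2) ∧
    ∀ x y, TLe x y ↔ ∃ e, ∀ n, ∃ k, E e (pre y k) n (x n) := by
  let R : ℕ → List Bool → ℕ → Bool → Prop := fun c σ n b =>
    ((Denumerable.ofNat Code c).eval (encode (σ, (n, b)))).Dom
  let nice : ℕ → Prop := fun c => (∀ σ τ n b, σ <+: τ → R c σ n b → R c τ n b) ∧
    ∀ σ n b b', R c σ n b → R c σ n b' → b = b'
  refine ⟨fun e σ n b => nice e ∧ R e σ n b, ⟨fun e σ τ n c h h' => ⟨h'.1, h'.1.1 σ τ n c h h'.2⟩,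
    fun e σ n c c' h h' => h.1.2 σ n c c' h.2 h'.2⟩, fun e => ?_, fun x y => ⟨fun h => ?_, ?_⟩⟩
  · refine S1.and (S1.of_prim (PP.const (nice e))) ?_
    refine Pool.Agent.Helper227.s1_eval.comp (f := fun q : List Bool × (ℕ × Bool) =>
      (Denumerable.ofNat Code e, encode (q.1, (q.2.1, q.2.2)))) ?_
    exact (Primrec.const _).pair (Primrec.encode.comp (Primrec.fst.pair
      ((Primrec.fst.comp Primrec.snd).pair (Primrec.snd.comp Primrec.snd))))
  · obtain ⟨E0, hE0, mE0, eE0⟩ := tLe_iff_SI.1 h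
    obtain ⟨G, ⟨E1, hE1, mE1, eE1⟩, hG1, hG2, hG3⟩ := US.choose (α := ℕ) (β := Bool)
      (P := fun B n c => ∃ s, E0 (pre B s, (n, c))) ⟨E0, hE0, mE0, fun B a => Iff.rfl⟩
    have hF2 : S1 fun m : ℕ => ∃ a : List Bool × (ℕ × Bool), m = encode a ∧ E1 a := by
      refine S1.ex (S1.and (S1.of_prim ?_) (hE1.comp Primrec.snd))
      exact Primrec.eq.comp Primrec.fst (Primrec.encode.comp Primrec.snd)
    obtain ⟨c, hc⟩ := Pool.Agent.Y588.PD.exists_dom hF2
    have hR : ∀ σ n b, R (encode c) σ n b ↔ E1 (σ, (n, b)) := by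
      intro σ n b
      simp only [R, Denumerable.ofNat_encode]
      rw [hc]
      constructor
      · rintro ⟨a, h1, h2⟩
        rw [encode_injective h1]
        exact h2
      · intro h1
        exact ⟨_, rfl, h1⟩
    have hG : ∀ B n b, G B n b ↔ ∃ s, E1 (pre B s, (n, b)) := fun B n b => eE1 B (n, b)
    refine ⟨encode c, fun n => ?_⟩
    have hnice : nice (encode c) := by
      refine ⟨fun σ τ n b h1 h2 => ?_, fun σ n b b' h1 h2 => ?_⟩
      · rw [hR] at h2 ⊢
        exact mE1 _ _ _ h1 h2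
      · rw [hR] at h1 h2
        have h3 := pre_ext σ
        refine hG2 (ext σ) n b b' ((hG _ _ _).2 ⟨σ.length, ?_⟩)
          ((hG _ _ _).2 ⟨σ.length, ?_⟩)
        · rw [h3]; exact h1
        · rw [h3]; exact h2
    obtain ⟨b, hb⟩ := hG3 y n ⟨x n, (eE0 (n, x n)).1 rfl⟩
    have h1 : x n = b := (eE0 (n, b)).2 (hG1 _ _ _ hb)
    obtain ⟨s, hs⟩ := (hG _ _ _).1 hb
    rw [h1]
    exact ⟨s, hnice, (hR _ _ _).2 hs⟩
  · rintro ⟨c, hc⟩
    obtain ⟨_, hn, _⟩ := hc 0
    refine tLe_iff_SI.2 ⟨fun q => R c q.1 q.2.1 q.2.2, ?_, fun σ τ a h1 h2 => hn.1 _ _ _ _ h1 h2,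
      fun p => ⟨fun h => ?_, ?_⟩⟩
    · refine Pool.Agent.Helper227.s1_eval.comp (f := fun q : List Bool × (ℕ × Bool) =>
        (Denumerable.ofNat Code c, encode (q.1, (q.2.1, q.2.2)))) ?_
      exact (Primrec.const _).pair (Primrec.encode.comp (Primrec.fst.pair
        ((Primrec.fst.comp Primrec.snd).pair (Primrec.snd.comp Primrec.snd))))
    · obtain ⟨k, _, hk⟩ := hc p.1
      rw [h] at hk
      exact ⟨k, hk⟩
    · rintro ⟨s, hs⟩
      obtain ⟨k, _, hk⟩ := hc p.1
      exact hn.2 _ _ _ _ (hn.1 _ _ _ _ (pre_prefix y (le_max_right s k)) hk)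
        (hn.1 _ _ _ _ (pre_prefix y (le_max_left s k)) hs)

/-- The functional with the axioms `E` maps `y` to `x`. -/
def Mp (E : List Bool → ℕ → Bool → Prop) (y x : ℕ → Bool) : Prop := ∀ n, ∃ k, E (pre y k) n (x n)

/-- Monotone and single valued computable axioms. -/
structure Ax (E : List Bool → ℕ → Bool → Prop) : Prop where
  mono : ∀ σ τ n c, σ <+: τ → E σ n c → E τ n c
  single : ∀ σ n c c', E σ n c → E σ n c' → c = c'
  s1 : S1 fun x : List Bool × (ℕ × Bool) => E x.1 x.2.1 x.2.2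

variable {E F : List Bool → ℕ → Bool → Prop}

theorem Ax.us (hE : Ax E) : US fun B (x : ℕ × Bool) => ∃ k, E (pre B k) x.1 x.2 :=
  ⟨fun y => E y.1 y.2.1 y.2.2, hE.s1, fun _ _ _ h h' => hE.mono _ _ _ _ h h', fun _ _ => Iff.rfl⟩

theorem Ax.eq (hE : Ax E) {y : ℕ → Bool} {n k l : ℕ} {b c : Bool} (h : E (pre y k) n b)
    (h' : E (pre y l) n c) : b = c :=
  hE.single _ _ _ _ (hE.mono _ _ _ _ (pre_prefix y (le_max_left k l)) h)
    (hE.mono _ _ _ _ (pre_prefix y (le_max_right k l)) h')

theorem Ax.mp_unique (hE : Ax E) {y x x' : ℕ → Bool} (h : Mp E y x) (h' : Mp E y x') : x = x' := by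
  funext n
  obtain ⟨k, hk⟩ := h n
  obtain ⟨l, hl⟩ := h' n
  exact hE.eq hk hl

theorem Ax.mp_iff (hE : Ax E) {y x : ℕ → Bool} (h : Mp E y x) (n : ℕ) (b : Bool) :
    (∃ k, E (pre y k) n b) ↔ x n = b := by
  obtain ⟨l, hl⟩ := h n
  constructor
  · rintro ⟨k, hk⟩
    exact hE.eq hl hk
  · rintro rfl
    exact ⟨l, hl⟩

theorem Ax.tLe (hE : Ax E) {y x : ℕ → Bool} (h : Mp E y x) : TLe x y := by
  rw [tLe_iff_SI]
  exact (hE.us.toSI y).of_eq fun z => hE.mp_iff h z.1 z.2

/-- A total functional composed with a computable map. -/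
theorem Ax.ucf (hE : Ax E) {c : ℕ → Bool} {K G : (ℕ → Bool) → ℕ → Bool} (hK : UCF c K)
    (h : ∀ v, Mp E (K v) (G v)) : UCF c G :=
  (UC.subst (UC.of_us hE.us) hK).of_eq fun v x => hE.mp_iff (h v) x.1 x.2

/-- The nodes of the thinned tree. -/
def tst (sel : List Bool × ℕ → List Bool) (v : ℕ → Bool) : ℕ → List Bool
  | 0 => []
  | i + 1 => tst sel v i ++ [v i] ++ sel (tst sel v i ++ [v i], i)

/-- The points of the thinned tree. -/
def tpt (sel : List Bool × ℕ → List Bool) (v : ℕ → Bool) (n : ℕ) : Bool :=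
  (tst sel v (n + 1)).getD n false

section
variable (sel : List Bool × ℕ → List Bool)

theorem le_length_tst (v : ℕ → Bool) (i : ℕ) : i ≤ (tst sel v i).length := by
  induction i with
  | zero => exact Nat.zero_le _
  | succ i ih =>
    rw [tst]
    simp only [List.length_append, List.length_singleton]
    omega

theorem tst_prefix (v : ℕ → Bool) {i j : ℕ} (h : i ≤ j) : tst sel v i <+: tst sel v j := by
  induction j, h using Nat.le_induction with
  | base => exact List.prefix_rfl
  | succ j _ ih =>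
    refine ih.trans ?_
    rw [tst, List.append_assoc]
    exact List.prefix_append _ _

theorem getD_of_prefix {s t : List Bool} (h : s <+: t) {i : ℕ} (hi : i < s.length) :
    t.getD i false = s.getD i false := by
  obtain ⟨r, rfl⟩ := h
  rw [List.getD_append _ _ _ _ hi]

theorem tpt_eq (v : ℕ → Bool) {i n : ℕ} (h : n < (tst sel v i).length) :
    tpt sel v n = (tst sel v i).getD n false := by
  rw [tpt]
  have h1 := le_length_tst sel v (n + 1)
  rcases le_total i (n + 1) with h2 | h2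
  · exact getD_of_prefix (tst_prefix sel v h2) h
  · exact (getD_of_prefix (tst_prefix sel v h2) (by omega)).symm

theorem pre_tpt (v : ℕ → Bool) (i : ℕ) :
    pre (tpt sel v) (tst sel v i).length = tst sel v i := by
  refine List.ext_getElem (by simp) fun n h1 h2 => ?_
  rw [getElem_pre, tpt_eq sel v h2, List.getD_eq_getElem _ _ h2]

theorem tst_congr {v v' : ℕ → Bool} {i : ℕ} (h : pre v i = pre v' i) :
    tst sel v i = tst sel v' i := by
  induction i with
  | zero => rfl
  | succ i ih =>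
    have h1 := ih (pre_eq_mono (Nat.le_succ i) h)
    have h2 := pre_eq_iff.1 h i (Nat.lt_succ_self i)
    rw [tst, tst, h1, h2]

theorem tpt_injective : Function.Injective (tpt sel) := by
  intro v v' h
  by_contra hne
  obtain ⟨i, h1, h2⟩ := first_diff hne
  have h3 := tst_congr sel h1
  have h4 : ∀ u : ℕ → Bool, tpt sel u (tst sel u i).length = u i := by
    intro u
    rw [tpt_eq sel u (i := i + 1)]
    · rw [tst, List.append_assoc, List.getD_append_right _ _ _ _ le_rfl]
      simp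
    · rw [tst]
      simp only [List.length_append, List.length_singleton]
      omega
  refine h2 ?_
  rw [← h4 v, ← h4 v', h, h3]

end

/-- Thinning: inside of a dense set which is effectively `Gδ` relative to `c` there is a perfect
set, parametrized by a map which is computable relative to `c`. -/
theorem thinning {c : ℕ → Bool} {p : (ℕ → Bool) → ℕ → Prop} (hp : UC c p)
    (hd : ∀ w k, ∃ w', pre w' k = pre w k ∧ ∀ n, p w' n) :
    ∃ h : (ℕ → Bool) → ℕ → Bool, UCF c h ∧ Function.Injective h ∧ ∀ v n, p (h v) n := by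
  obtain ⟨R, ⟨E, hE, mE, eE⟩, h2, h3⟩ := hp.strings
  -- selection of an extension
  have hsel : US fun B (x : (List Bool × ℕ) × List Bool) =>
      ∃ s, E (pre B s, (x.1.1 ++ x.2, x.1.2)) := by
    refine ⟨fun y => E (y.1, (y.2.1.1 ++ y.2.2, y.2.1.2)), hE.comp ?_, fun _ _ _ h => mE _ _ _ h,
      fun _ _ => Iff.rfl⟩
    exact Primrec.fst.pair ((Primrec.list_append.comp
      (Primrec.fst.comp (Primrec.fst.comp Primrec.snd)) (Primrec.snd.comp Primrec.snd)).pair
      (Primrec.snd.comp (Primrec.fst.comp Primrec.snd)))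
  obtain ⟨G, g1, g2, g3, g4⟩ := US.choose
    (P := fun B (x : List Bool × ℕ) (t : List Bool) => ∃ s, E (pre B s, (x.1 ++ t, x.2))) hsel
  have hex : ∀ s n, ∃ t, R (s ++ t) n := by
    intro s n
    obtain ⟨w', h4, h5⟩ := hd (ext s) s.length
    rw [pre_ext] at h4
    obtain ⟨k, hk⟩ := (h3 w' n).1 (h5 n)
    obtain ⟨t, ht⟩ : s <+: pre w' (max s.length k) := by
      conv_lhs => rw [← h4]
      exact pre_prefix _ (le_max_left _ _)
    refine ⟨t, ?_⟩
    rw [ht]
    obtain ⟨t', ht'⟩ := pre_prefix w' (le_max_right s.length k)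
    rw [← ht']
    exact h2 _ _ _ hk
  have hex' : ∀ x : List Bool × ℕ, ∃ t, G c x t := fun x => by
    obtain ⟨t, ht⟩ := hex x.1 x.2
    exact g4 c x ⟨t, (eE (x.1 ++ t, x.2)).1 ht⟩
  choose sel hselG using hex'
  have hG : ∀ x t, G c x t ↔ t = sel x := fun x t =>
    ⟨fun h => g3 _ _ _ _ h (hselG x), fun h => h ▸ hselG x⟩
  have hR : ∀ s n, R (s ++ sel (s, n)) n := fun s n =>
    (eE (s ++ sel (s, n), n)).2 (g2 _ _ _ (hselG (s, n)))
  have hst : UC c fun v (x : ℕ × List Bool) => tst sel v x.1 = x.2 := by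
    refine UC.iterate (st := fun v => tst sel v) (s0 := [])
      (S := fun v i s s' => ∃ z : Bool × List Bool, v i = z.1 ∧ G c (s ++ [z.1], i) z.2 ∧
        s ++ [z.1] ++ z.2 = s') (fun _ => rfl) ?_ ?_
    · refine UC.ex (α := (ℕ × List Bool) × List Bool) (p := fun v y (z : Bool × List Bool) =>
        v y.1.1 = z.1 ∧ G c (y.1.2 ++ [z.1], y.1.1) z.2 ∧ y.1.2 ++ [z.1] ++ z.2 = y.2)
        (UC.and ?_ (UC.and ?_ (UC.of_prim ?_)))
      · exact UC.query.comp (f := fun y : ((ℕ × List Bool) × List Bool) × (Bool × List Bool) =>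
          (y.1.1.1, y.2.1)) ((Primrec.fst.comp (Primrec.fst.comp Primrec.fst)).pair
            (Primrec.fst.comp Primrec.snd))
      · refine (UC.of_param (c := c) g1).comp
          (f := fun y : ((ℕ × List Bool) × List Bool) × (Bool × List Bool) =>
            ((y.1.1.2 ++ [y.2.1], y.1.1.1), y.2.2)) ?_
        exact ((Primrec.list_append.comp (Primrec.snd.comp (Primrec.fst.comp Primrec.fst))
          (Primrec.list_cons.comp (Primrec.fst.comp Primrec.snd) (Primrec.const []))).pair
          (Primrec.fst.comp (Primrec.fst.comp Primrec.fst))).pair (Primrec.snd.comp Primrec.snd)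
      · exact Primrec.eq.comp (Primrec.list_append.comp (Primrec.list_append.comp
          (Primrec.snd.comp (Primrec.fst.comp Primrec.fst))
          (Primrec.list_cons.comp (Primrec.fst.comp Primrec.snd) (Primrec.const [])))
          (Primrec.snd.comp Primrec.snd)) (Primrec.snd.comp Primrec.fst)
    · intro v i s'
      constructor
      · intro h
        exact ⟨(v i, _), rfl, hselG _, h⟩
      · rintro ⟨⟨b, t⟩, h4, h5, h6⟩
        simp only at h4 h5 h6
        rw [hG] at h5
        rw [← h6, h5, ← h4]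
        rfl
  refine ⟨tpt sel, ?_, tpt_injective sel, fun v n => ?_⟩
  · have h4 : UC c fun v (x : ℕ × Bool) => ∃ s : List Bool, tst sel v (x.1 + 1) = s ∧
        s.getD x.1 false = x.2 := by
      refine UC.ex (p := fun v (x : ℕ × Bool) (s : List Bool) => tst sel v (x.1 + 1) = s ∧
        s.getD x.1 false = x.2) (UC.and ?_ (UC.of_prim ?_))
      · exact hst.comp (f := fun y : (ℕ × Bool) × List Bool => (y.1.1 + 1, y.2))
          ((Primrec.succ.comp (Primrec.fst.comp Primrec.fst)).pair Primrec.snd)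
      · exact Primrec.eq.comp ((Primrec.list_getD false).comp Primrec.snd
          (Primrec.fst.comp Primrec.fst)) (Primrec.snd.comp Primrec.fst)
    refine h4.of_eq fun v x => ?_
    constructor
    · rintro ⟨s, rfl, h5⟩
      exact h5
    · intro h5
      exact ⟨_, rfl, h5⟩
  · refine (h3 _ _).2 ⟨(tst sel v (n + 1)).length, ?_⟩
    rw [pre_tpt, tst]
    exact hR _ _

/-- The set `A` misses a cone. -/
def MissesCone (A : Set (ℕ → Bool)) : Prop := ∃ c, ∀ x, TLe c x → x ∉ A

/-- The set `A` contains a pointed perfect set. -/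
def ContainsPP (A : Set (ℕ → Bool)) : Prop := ∃ T, PPT T ∧ Body T ⊆ A

/-- Some pointed perfect set, all of whose pointed perfect subsets meet `A`. -/
def PPos (A : Set (ℕ → Bool)) : Prop :=
  ∃ T, PPT T ∧ ∀ T', PPT T' → Body T' ⊆ Body T → ∃ x ∈ Body T', x ∈ A

/-- The part of a perfect tree above a node. -/
theorem PPT.above {T : Set (List Bool)} (hT : PPT T) (w : ℕ → Bool) (k : ℕ) :
    ∃ T', PPT T' ∧ Body T' ⊆ Body T ∧ ∀ x ∈ Body T', pre x k = pre (br (tc T) w) k := by
  -- prescribe the first bits of the code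
  let G : (ℕ → Bool) → ℕ → Bool := fun v n => if n < k then w n else v (n - k)
  have hG : UCF (tc T) G := by
    have h1 : UC (tc T) fun v (x : ℕ × Bool) => (x.1 < k ∧ (pre w k).getD x.1 false = x.2) ∨
        (¬ x.1 < k ∧ v (x.1 - k) = x.2) := by
      have hlt : PrimrecPred fun x : ℕ × Bool => x.1 < k :=
        Primrec.nat_lt.comp Primrec.fst (Primrec.const k)
      refine UC.or (UC.and (UC.of_prim hlt) (UC.of_prim ?_)) (UC.and (UC.of_prim hlt.not) ?_)
      · exact Primrec.eq.comp ((Primrec.list_getD false).comp (Primrec.const _) Primrec.fst)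
          Primrec.snd
      · exact UC.query.comp (f := fun x : ℕ × Bool => (x.1 - k, x.2))
          ((Primrec.nat_sub.comp Primrec.fst (Primrec.const k)).pair Primrec.snd)
    refine h1.of_eq fun v x => ?_
    simp only [G]
    by_cases h : x.1 < k
    · rw [if_pos h, pre_getD _ _ _ _ h]
      simp [h]
    · rw [if_neg h]
      simp [h]
  have hinj : Function.Injective G := by
    intro v v' h
    funext n
    have h1 := congrFun h (k + n)
    simpa [G] using h1
  obtain ⟨T', h1, -, h3⟩ := range_tree_inj (c := tc T) (G := fun v => br (tc T) (G v))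
    ((ucf_br _).comp hG) (fun v => hT.tLe _) (hT.toPTree.br_injective.comp hinj)
  refine ⟨T', h1, ?_, ?_⟩
  · rw [h3]
    rintro _ ⟨v, rfl⟩
    exact hT.toPTree.br_mem _
  · rw [h3]
    rintro _ ⟨v, rfl⟩
    refine br_lipschitz (pre_eq_iff.2 fun i hi => ?_)
    simp only [G]
    rw [if_pos hi]

/-- Taking care of two functionals. -/
theorem step {A : Set (ℕ → Bool)} (hA : ¬ PPos A) (hE : Ax E) (hF : Ax F) {T : Set (List Bool)}
    (hT : PPT T) : ∃ T', PPT T' ∧ Body T' ⊆ Body T ∧
      ∀ z ∈ Body T', ∀ y ∈ A, Mp E z y → ¬ Mp F y z := by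
  let p : (ℕ → Bool) → ℕ → Prop := fun z n => (∃ b, ∃ k, E (pre z k) n b) ∧
    ∃ ρ : List Bool, (∀ i < ρ.length, ∃ k, E (pre z k) i (ρ.getD i false)) ∧
      ∃ b, z n = b ∧ F ρ n b
  have hp : US p := by
    refine US.and (US.ex (p := fun z n (b : Bool) => ∃ k, E (pre z k) n b) hE.us)
      (US.ex (p := fun z n (ρ : List Bool) => (∀ i < ρ.length, ∃ k, E (pre z k) i
        (ρ.getD i false)) ∧ ∃ b, z n = b ∧ F ρ n b) (US.and ?_ ?_))
    · refine US.all_lt (α := ℕ × List Bool) (p := fun z y i => ∃ k, E (pre z k) i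
        (y.2.getD i false)) (f := fun y => y.2.length) ?_ (Primrec.list_length.comp Primrec.snd)
      exact hE.us.comp (f := fun y : (ℕ × List Bool) × ℕ => (y.2, y.1.2.getD y.2 false))
        (Primrec.snd.pair ((Primrec.list_getD false).comp (Primrec.snd.comp Primrec.fst)
          Primrec.snd))
    · refine US.ex (α := ℕ × List Bool) (p := fun z y (b : Bool) => z y.1 = b ∧ F y.2 y.1 b)
        (US.and ?_ (US.of_s1 ?_))
      · exact US.query.comp (f := fun y : (ℕ × List Bool) × Bool => (y.1.1, y.2))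
          ((Primrec.fst.comp Primrec.fst).pair Primrec.snd)
      · exact hF.s1.comp (f := fun y : (ℕ × List Bool) × Bool => (y.1.2, (y.1.1, y.2)))
          ((Primrec.snd.comp Primrec.fst).pair ((Primrec.fst.comp Primrec.fst).pair Primrec.snd))
  have hpD : ∀ z, (∀ n, p z n) ↔ ∃ y, Mp E z y ∧ Mp F y z := by
    intro z
    constructor
    · intro h
      choose y hy using fun n => (h n).1
      have hy : Mp E z y := hy
      refine ⟨y, hy, fun n => ?_⟩
      obtain ⟨-, ρ, h1, b, rfl, h2⟩ := h n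
      refine ⟨ρ.length, ?_⟩
      have h3 : pre y ρ.length = ρ := by
        refine List.ext_getElem (by simp) fun i h4 h5 => ?_
        rw [getElem_pre, (hE.mp_iff hy _ _).1 (h1 i h5), List.getD_eq_getElem _ _ h5]
      rw [h3]
      exact h2
    · rintro ⟨y, h1, h2⟩ n
      refine ⟨⟨y n, h1 n⟩, ?_⟩
      obtain ⟨k, hk⟩ := h2 n
      refine ⟨pre y k, fun i hi => ?_, z n, rfl, hk⟩
      rw [pre_getD _ _ _ _ (by simpa using hi)]
      exact h1 i
  by_cases hd : ∀ w k, ∃ w', pre w' k = pre w k ∧ ∀ n, p (br (tc T) w') n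
  · -- the dense case
    obtain ⟨h, h1, h2, h3⟩ := thinning (c := tc T) (p := fun w => p (br (tc T) w))
      (UC.subst (UC.of_us hp) (ucf_br _)) hd
    choose G hG hG' using fun v => (hpD _).1 (h3 v)
    have hK : UCF (tc T) fun v => br (tc T) (h v) := (ucf_br _).comp h1
    have hGc : UCF (tc T) G := hE.ucf hK hG
    have hGinj : Function.Injective G := by
      intro v v' hv
      have h4 : br (tc T) (h v) = br (tc T) (h v') := by
        have h5 := hG' v'
        rw [← hv] at h5
        exact hF.mp_unique (hG' v) h5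
      exact h2 (hT.toPTree.br_injective h4)
    obtain ⟨S, hS, -, hS'⟩ := range_tree_inj hGc (fun v => (hT.tLe (h v)).trans (hF.tLe (hG' v)))
      hGinj
    obtain ⟨Q, hQ, hQ1, hQ2⟩ : ∃ Q, PPT Q ∧ Body Q ⊆ Body S ∧ ∀ x ∈ Body Q, x ∉ A := by
      by_contra hcon
      push Not at hcon
      exact hA ⟨S, hS, hcon⟩
    have h4 : ∀ w, ∃ v, G v = br (tc Q) w := by
      intro w
      have h5 := hQ1 (hQ.toPTree.br_mem w)
      rw [hS'] at h5
      exact h5
    choose V hV using h4
    have hL : UCF (tc Q) fun w => br (tc T) (h (V w)) :=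
      hF.ucf (ucf_br (tc Q)) fun w => by
        rw [← hV w]
        exact hG' (V w)
    have hLE : ∀ w, Mp E (br (tc T) (h (V w))) (br (tc Q) w) := fun w => by
      have := hG (V w)
      rwa [hV w] at this
    obtain ⟨T', hT', -, hT''⟩ := range_tree_inj hL (fun w => (hQ.tLe w).trans (hE.tLe (hLE w)))
      (by
        intro w w' hw
        have h5 := hLE w'
        have hw : br (tc T) (h (V w)) = br (tc T) (h (V w')) := hw
        rw [← hw] at h5
        exact hQ.toPTree.br_injective (hE.mp_unique (hLE w) h5))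
    refine ⟨T', hT', ?_, ?_⟩
    · rw [hT'']
      rintro _ ⟨w, rfl⟩
      exact hT.toPTree.br_mem _
    · rw [hT'']
      rintro _ ⟨w, rfl⟩ y hy h5
      have h6 := hE.mp_unique h5 (hLE w)
      rw [h6] at hy
      exact absurd hy (hQ2 _ (hQ.toPTree.br_mem w))
  · push Not at hd
    obtain ⟨w, k, hd⟩ := hd
    obtain ⟨m, hm⟩ := hT.toPTree.inv_cont w k
    obtain ⟨T', h1, h2, h3⟩ := hT.above w m
    refine ⟨T', h1, h2, fun z hz y _ h4 h5 => ?_⟩
    obtain ⟨w', rfl⟩ := hT.toPTree.surj (h2 hz)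
    obtain ⟨n, hn⟩ := hd w' (hm w' (h3 _ hz))
    exact hn ((hpD _).2 ⟨y, h4, h5⟩ n)

theorem isClosed_body (T : Set (List Bool)) : IsClosed (Body T) := by
  have h1 : Body T = ⋂ n : ℕ, {x | pre x n ∈ T} := by
    ext x
    simp [Body]
  rw [h1]
  refine isClosed_iInter fun n => ?_
  rw [← isOpen_compl_iff, isOpen_iff_mem_nhds]
  intro x hx
  have h2 : {x' : ℕ → Bool | pre x' n = pre x n} ∈ nhds x := by
    have h3 : {x' : ℕ → Bool | pre x' n = pre x n} = ⋂ i ∈ Finset.range n, {x' | x' i = x i} := by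
      ext x'
      simp [pre_eq_iff]
    rw [h3]
    refine (isOpen_biInter_finset fun i _ => ?_).mem_nhds (by simp)
    exact (isOpen_discrete ({x i} : Set Bool)).preimage (continuous_apply (A := fun _ : ℕ => Bool) i)
  refine Filter.mem_of_superset h2 fun x' hx' => ?_
  rw [Set.mem_compl_iff, Set.mem_ofPred_eq] at hx ⊢
  rwa [show pre x' n = pre x n from hx']

/-- A set which meets all degrees of some cone is positive for pointed perfect sets. -/
theorem ppos_of_cone {A : Set (ℕ → Bool)} {c : ℕ → Bool}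
    (h : ∀ z, TLe c z → ∃ y ∈ A, TLe y z ∧ TLe z y) : PPos A := by
  by_contra hA
  obtain ⟨E, hE, hE1, hE2⟩ := exists_fam'
  have hAx : ∀ e, Ax (E e) := fun e => ⟨hE.mono e, hE.single e, hE1 e⟩
  choose N h1 h2 h3 using fun (n : ℕ) (T : {T // PPT T}) =>
    step hA (hAx n.unpair.1) (hAx n.unpair.2) T.2
  obtain ⟨T0, hT0, -, hT0'⟩ := range_tree_inj (c := c) (G := fun w => join c w)
    (UCF.param.join UCF.id) (fun w => tLe_join_left _ _) (fun v v' hv => by
      have := congrArg od hv
      simpa using this)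
  let s : ℕ → {T // PPT T} := fun n => Nat.rec ⟨T0, hT0⟩ (fun n T => ⟨N n T, h1 n T⟩) n
  obtain ⟨z, hz⟩ := IsCompact.nonempty_iInter_of_sequence_nonempty_isCompact_isClosed
    (fun n => Body (s n).1) (fun n => h2 n (s n))
    (fun n => ⟨_, (s n).2.toPTree.br_mem fun _ => false⟩) (isClosed_body _).isCompact
    fun n => isClosed_body _
  rw [Set.mem_iInter] at hz
  have hcz : TLe c z := by
    have h4 := hz 0
    have h4 : z ∈ Body T0 := h4
    rw [hT0'] at h4
    obtain ⟨w, rfl⟩ := h4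
    exact tLe_join_left _ _
  obtain ⟨y, hy, h4, h5⟩ := h z hcz
  obtain ⟨i, hi⟩ := (hE2 _ _).1 h4
  obtain ⟨j, hj⟩ := (hE2 _ _).1 h5
  have h6 := h3 (Nat.pair i j) (s (Nat.pair i j)) z (hz (Nat.pair i j + 1)) y hy
  rw [Nat.unpair_pair] at h6
  exact h6 hi hj

end Pool.Agent.H660.TM
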