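import Pool.Graph.R_seed8.H685R3.Inv
import Pool.Graph.R_seed8.H685R3.Game
import Pool.Graph.R_seed8.Helper227.VL

set_option autoImplicit false

/-! Relations which are Sigma-one relative to a fixed real, uniformly in a second oracle. -/

namespace Pool.Agent.H660.TM

open Encodable
open Pool.Agent.Helper227
open Pool.Agent.H685R3 (US)

/-- The even positions. -/
def ev (x : ℕ → Bool) : ℕ → Bool := fun n => x (2 * n)

/-- The odd positions. -/
def od (x : ℕ → Bool) : ℕ → Bool := fun n => x (2 * n + 1)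

@[simp] theorem ev_join (x y : ℕ → Bool) : ev (join x y) = x := evn_join x y
@[simp] theorem od_join (x y : ℕ → Bool) : od (join x y) = y := odd_join x y
theorem join_ev_od (x : ℕ → Bool) : join (ev x) (od x) = x := join_evn_odd x

theorem tLe_ev (x : ℕ → Bool) : TLe (ev x) x := by
  have h := tLe_join_left (ev x) (od x)
  rwa [join_ev_od] at h

theorem tLe_od (x : ℕ → Bool) : TLe (od x) x := by
  have h := tLe_join_right (ev x) (od x)
  rwa [join_ev_od] at h

/-- Substitution of a functional. -/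
theorem us_subst {α : Type*} [Primcodable α] {p : (ℕ → Bool) → α → Prop} (hp : US p)
    {H : (ℕ → Bool) → ℕ → Bool → Prop} (hH : US fun B (x : ℕ × Bool) => H B x.1 x.2) :
    ∃ q : (ℕ → Bool) → α → Prop, US q ∧
      ∀ B h, (∀ n b, H B n b ↔ h n = b) → ∀ a, q B a ↔ p h a := by
  obtain ⟨E, hE, mE, eE⟩ := hp
  refine ⟨fun B a => ∃ ρ : List Bool, E (ρ, a) ∧ ∀ i < ρ.length, H B i (ρ.getD i false), ?_, ?_⟩
  · refine US.ex (p := fun B (a : α) (ρ : List Bool) => E (ρ, a) ∧
      ∀ i < ρ.length, H B i (ρ.getD i false)) (US.and (US.of_s1 (hE.comp ?_)) ?_)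
    · exact Primrec.snd.pair Primrec.fst
    · refine US.all_lt (α := α × List Bool) (p := fun B x i => H B i (x.2.getD i false))
        (f := fun x => x.2.length) ?_ (Primrec.list_length.comp Primrec.snd)
      exact hH.comp (f := fun z : (α × List Bool) × ℕ => (z.2, z.1.2.getD z.2 false))
        (Primrec.snd.pair
          ((Primrec.list_getD false).comp (Primrec.snd.comp Primrec.fst) Primrec.snd))
  · intro B h hh a
    rw [eE]
    constructor
    · rintro ⟨ρ, h2, h4⟩
      refine ⟨ρ.length, ?_⟩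
      have : pre h ρ.length = ρ := by
        refine List.ext_getElem (by simp) fun i h5 h6 => ?_
        rw [getElem_pre, (hh _ _).1 (h4 i h6)]
        simp [h6]
      rwa [this]
    · rintro ⟨s, hs⟩
      exact ⟨pre h s, hs, fun i hi =>
        (hh _ _).2 (pre_getD h _ _ _ (by simpa using hi)).symm⟩

/-- `p` is Sigma-one relative to `c`, uniformly in the second oracle. -/
def UC (c : ℕ → Bool) {α : Type*} [Primcodable α] (p : (ℕ → Bool) → α → Prop) : Prop :=
  ∃ q : (ℕ → Bool) → α → Prop, US q ∧ ∀ w a, p w a ↔ q (join c w) a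

/-- `G` is computable relative to `c`, uniformly. -/
def UCF (c : ℕ → Bool) (G : (ℕ → Bool) → ℕ → Bool) : Prop :=
  UC c fun w (x : ℕ × Bool) => G w x.1 = x.2

namespace UC

variable {α β γ : Type*} [Primcodable α] [Primcodable β] [Primcodable γ] {c d : ℕ → Bool}

theorem of_eq {p q : (ℕ → Bool) → α → Prop} (hp : UC c p) (h : ∀ w a, p w a ↔ q w a) : UC c q :=
  (funext fun B => funext fun a => propext (h B a) : p = q) ▸ hp

theorem of_s1 {p : α → Prop} (hp : S1 p) : UC c fun _ => p :=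
  ⟨fun _ => p, US.of_s1 hp, fun _ _ => Iff.rfl⟩

theorem of_prim {p : α → Prop} (hp : PrimrecPred p) : UC c fun _ => p := of_s1 (S1.of_prim hp)

theorem comp {p : (ℕ → Bool) → β → Prop} {f : α → β} (hp : UC c p) (hf : Primrec f) :
    UC c fun w a => p w (f a) := by
  obtain ⟨q, hq, e⟩ := hp
  exact ⟨fun B a => q B (f a), hq.comp hf, fun w a => e _ _⟩

theorem and {p q : (ℕ → Bool) → α → Prop} (hp : UC c p) (hq : UC c q) :
    UC c fun w a => p w a ∧ q w a := by
  obtain ⟨p', hp', e⟩ := hp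
  obtain ⟨q', hq', e'⟩ := hq
  exact ⟨_, hp'.and hq', fun w a => and_congr (e w a) (e' w a)⟩

theorem or {p q : (ℕ → Bool) → α → Prop} (hp : UC c p) (hq : UC c q) :
    UC c fun w a => p w a ∨ q w a := by
  obtain ⟨p', hp', e⟩ := hp
  obtain ⟨q', hq', e'⟩ := hq
  exact ⟨_, hp'.or hq', fun w a => or_congr (e w a) (e' w a)⟩

theorem ex {p : (ℕ → Bool) → α → β → Prop} (hp : UC c fun w (x : α × β) => p w x.1 x.2) :
    UC c fun w a => ∃ b, p w a b := by
  obtain ⟨q, hq, e⟩ := hp
  exact ⟨_, US.ex (p := fun B a b => q B (a, b)) hq, fun w a => exists_congr fun b => e w (a, b)⟩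

theorem all_mem {p : (ℕ → Bool) → α → β → Prop} {f : α → List β}
    (hp : UC c fun w (x : α × β) => p w x.1 x.2)
    (hf : Primrec f) : UC c fun w a => ∀ b ∈ f a, p w a b := by
  obtain ⟨q, hq, e⟩ := hp
  exact ⟨_, US.all_mem (p := fun B a b => q B (a, b)) hq hf,
    fun w a => forall_congr' fun b => forall_congr' fun _ => e w (a, b)⟩

theorem all_lt {p : (ℕ → Bool) → α → ℕ → Prop} {f : α → ℕ}
    (hp : UC c fun w (x : α × ℕ) => p w x.1 x.2)
    (hf : Primrec f) : UC c fun w a => ∀ b < f a, p w a b :=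
  (all_mem hp (Primrec.list_range.comp hf)).of_eq (by simp)

theorem us_odd : US fun B (x : ℕ × Bool) => B (2 * x.1 + 1) = x.2 :=
  US.query.comp (f := fun x : ℕ × Bool => (2 * x.1 + 1, x.2))
    ((Primrec.succ.comp (Primrec.nat_mul.comp (Primrec.const 2) Primrec.fst)).pair Primrec.snd)

theorem us_even : US fun B (x : ℕ × Bool) => B (2 * x.1) = x.2 :=
  US.query.comp (f := fun x : ℕ × Bool => (2 * x.1, x.2))
    ((Primrec.nat_mul.comp (Primrec.const 2) Primrec.fst).pair Primrec.snd)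

theorem of_us {p : (ℕ → Bool) → α → Prop} (hp : US p) : UC c p := by
  obtain ⟨q, hq, e⟩ := us_subst hp (H := fun B n b => B (2 * n + 1) = b) us_odd
  exact ⟨q, hq, fun w a => (e (join c w) w (fun n b => by rw [join_odd]) a).symm⟩

theorem of_param {p : (ℕ → Bool) → α → Prop} (hp : US p) : UC c fun _ => p c := by
  obtain ⟨q, hq, e⟩ := us_subst hp (H := fun B n b => B (2 * n) = b) us_even
  exact ⟨q, hq, fun w a => (e (join c w) c (fun n b => by rw [join_even]) a).symm⟩

theorem of_SI {p : α → Prop} (hp : SI c p) : UC c fun _ => p := by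
  obtain ⟨E, hE, mE, eE⟩ := hp
  have h1 : US fun B (a : α) => ∃ s, E (pre B s, a) := ⟨E, hE, mE, fun _ _ => Iff.rfl⟩
  exact (of_param (c := c) h1).of_eq fun w a => (eE a).symm

theorem query : UC c fun w (x : ℕ × Bool) => w x.1 = x.2 := of_us US.query

theorem cquery : UC c fun _ (x : ℕ × Bool) => c x.1 = x.2 := of_param US.query

theorem subst_aux {p : (ℕ → Bool) → α → Prop} (hp : US p) {K : (ℕ → Bool) → ℕ → Bool}
    (hK : UCF c K) : UC c fun w => p (K w) := by
  obtain ⟨q, hq, e⟩ := hK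
  obtain ⟨r, hr, e'⟩ := us_subst hp (H := fun B n b => q B (n, b)) hq
  exact ⟨r, hr, fun w a => (e' (join c w) (K w) (fun n b => (e w (n, b)).symm) a).symm⟩

theorem join_graph {K L : (ℕ → Bool) → ℕ → Bool} (hK : UCF c K) (hL : UCF c L) :
    UCF c fun w => join (K w) (L w) := by
  have hm : PrimrecPred fun y : ℕ × Bool => y.1 % 2 = 0 :=
    Primrec.eq.comp (Primrec.nat_mod.comp Primrec.fst (Primrec.const 2)) (Primrec.const 0)
  have hf : Primrec fun y : ℕ × Bool => (y.1 / 2, y.2) :=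
    (Primrec.nat_div.comp Primrec.fst (Primrec.const 2)).pair Primrec.snd
  refine (UC.or (UC.and (UC.of_prim hm) (UC.comp hK hf))
    (UC.and (UC.of_prim hm.not) (UC.comp hL hf))).of_eq fun w y => ?_
  unfold join
  by_cases h2 : y.1 % 2 = 0 <;> simp [h2]

theorem subst {p : (ℕ → Bool) → α → Prop} (hp : UC c p) {K : (ℕ → Bool) → ℕ → Bool}
    (hK : UCF c K) : UC c fun w => p (K w) := by
  obtain ⟨q, hq, e⟩ := hp
  refine (subst_aux hq (join_graph (c := c) (K := fun _ => c) cquery hK)).of_eq fun w a => ?_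
  exact (e _ _).symm

theorem mono {p : (ℕ → Bool) → α → Prop} (hp : UC c p) (h : TLe c d) : UC d p := by
  obtain ⟨q, hq, e⟩ := hp
  have h1 : UCF d fun _ => c := of_SI (tLe_iff_SI.1 h)
  refine (subst_aux hq (join_graph h1 (L := fun w => w) query)).of_eq fun w a => ?_
  exact (e _ _).symm

theorem toSI {p : (ℕ → Bool) → α → Prop} (hp : UC c p) {w B : ℕ → Bool} (hc : TLe c B)
    (hw : TLe w B) : SI B (p w) := by
  obtain ⟨q, hq, e⟩ := hp
  refine ((hq.toSI (join c w)).trans (join_tLe hc hw)).of_eq fun a => ?_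
  exact (e _ _).symm

/-- Iteration of a step relation. -/
theorem iterate {st : (ℕ → Bool) → ℕ → α} {s0 : α} {S : (ℕ → Bool) → ℕ → α → α → Prop}
    (h0 : ∀ w, st w 0 = s0) (hS : UC c fun w (x : (ℕ × α) × α) => S w x.1.1 x.1.2 x.2)
    (h1 : ∀ w n y, st w (n + 1) = y ↔ S w n (st w n) y) :
    UC c fun w (x : ℕ × α) => st w x.1 = x.2 := by
  have key : UC c fun w (x : ℕ × α) => ∃ L : List α, (L.length = x.1 + 1 ∧ L[0]? = some s0 ∧
      L[x.1]? = some x.2) ∧ ∀ i < x.1, ∃ z : α × α, (L[i]? = some z.1 ∧ L[i + 1]? = some z.2) ∧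
        S w i z.1 z.2 := by
    refine UC.ex (p := fun w (x : ℕ × α) (L : List α) => (L.length = x.1 + 1 ∧ L[0]? = some s0 ∧
      L[x.1]? = some x.2) ∧ ∀ i < x.1, ∃ z : α × α, (L[i]? = some z.1 ∧ L[i + 1]? = some z.2) ∧
        S w i z.1 z.2) (UC.and (UC.of_prim (PrimrecPred.and ?_ (PrimrecPred.and ?_ ?_))) ?_)
    · exact Primrec.eq.comp (Primrec.list_length.comp Primrec.snd)
        (Primrec.succ.comp (Primrec.fst.comp Primrec.fst))
    · exact Primrec.eq.comp (Primrec.list_getElem?.comp Primrec.snd (Primrec.const 0))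
        (Primrec.const _)
    · exact Primrec.eq.comp (Primrec.list_getElem?.comp Primrec.snd
        (Primrec.fst.comp Primrec.fst)) (Primrec.option_some.comp (Primrec.snd.comp Primrec.fst))
    · refine UC.all_lt (α := (ℕ × α) × List α) (p := fun w y i => ∃ z : α × α,
        (y.2[i]? = some z.1 ∧ y.2[i + 1]? = some z.2) ∧ S w i z.1 z.2)
        (f := fun y => y.1.1) ?_ (Primrec.fst.comp Primrec.fst)
      refine UC.ex (α := ((ℕ × α) × List α) × ℕ) (p := fun w y (z : α × α) =>
        (y.1.2[y.2]? = some z.1 ∧ y.1.2[y.2 + 1]? = some z.2) ∧ S w y.2 z.1 z.2)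
        (UC.and (UC.of_prim (PrimrecPred.and ?_ ?_)) ?_)
      · exact Primrec.eq.comp (Primrec.list_getElem?.comp
          (Primrec.snd.comp (Primrec.fst.comp Primrec.fst)) (Primrec.snd.comp Primrec.fst))
          (Primrec.option_some.comp (Primrec.fst.comp Primrec.snd))
      · exact Primrec.eq.comp (Primrec.list_getElem?.comp
          (Primrec.snd.comp (Primrec.fst.comp Primrec.fst))
          (Primrec.succ.comp (Primrec.snd.comp Primrec.fst)))
          (Primrec.option_some.comp (Primrec.snd.comp Primrec.snd))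
      · exact hS.comp (f := fun y : (((ℕ × α) × List α) × ℕ) × (α × α) =>
          ((y.1.2, y.2.1), y.2.2)) (((Primrec.snd.comp Primrec.fst).pair
            (Primrec.fst.comp Primrec.snd)).pair (Primrec.snd.comp Primrec.snd))
  refine key.of_eq fun w x => ?_
  obtain ⟨n, a⟩ := x
  constructor
  · rintro ⟨L, ⟨hl, h2, h3⟩, h4⟩
    have h5 : ∀ i ≤ n, L[i]? = some (st w i) := by
      intro i
      induction i with
      | zero => intro _; rw [h2, h0]
      | succ i ih =>
        intro hi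
        obtain ⟨z, ⟨h6, h7⟩, h8⟩ := h4 i (by simp only; omega)
        rw [ih (by omega)] at h6
        have h9 : st w i = z.1 := Option.some.inj h6
        rw [h7, (h1 w i z.2).2 (h9 ▸ h8)]
    have h6 := h5 n le_rfl
    simp only at h3
    rw [h3] at h6
    exact (Option.some.inj h6).symm
  · intro h
    have h : st w n = a := h
    refine ⟨(List.range (n + 1)).map (st w), ⟨by simp, by simp [h0], by simp [h]⟩, ?_⟩
    intro i hi
    have hi : i < n := hi
    refine ⟨(st w i, st w (i + 1)), ⟨by simp [show i < n + 1 by omega], by simp [hi]⟩, ?_⟩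
    exact (h1 w i _).1 rfl

/-- Uniform choice. -/
theorem choose [Inhabited β] {P : (ℕ → Bool) → α → β → Prop}
    (hP : UC c fun w (x : α × β) => P w x.1 x.2) :
    ∃ G : (ℕ → Bool) → α → β → Prop, (UC c fun w (x : α × β) => G w x.1 x.2) ∧
      (∀ w a b, G w a b → P w a b) ∧ (∀ w a b b', G w a b → G w a b' → b = b') ∧
      ∀ w a, (∃ b, P w a b) → ∃ b, G w a b := by
  obtain ⟨q, hq, e⟩ := hP
  obtain ⟨G, h1, h2, h3, h4⟩ := US.choose (P := fun B a b => q B (a, b)) hq
  refine ⟨fun w => G (join c w), ⟨_, h1, fun _ _ => Iff.rfl⟩, fun w a b h => ?_, fun w => h3 _,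
    fun w a h => ?_⟩
  · exact (e w (a, b)).2 (h2 _ _ _ h)
  · obtain ⟨b, hb⟩ := h
    exact h4 _ _ ⟨b, (e w (a, b)).1 hb⟩

end UC

variable {c d : ℕ → Bool}

theorem UCF.tLe {G : (ℕ → Bool) → ℕ → Bool} (h : UCF c G) {w B : ℕ → Bool} (hc : TLe c B)
    (hw : TLe w B) : TLe (G w) B := tLe_iff_SI.2 (UC.toSI h hc hw)

theorem UCF.comp {G K : (ℕ → Bool) → ℕ → Bool} (h : UCF c G) (h' : UCF c K) :
    UCF c fun w => G (K w) := UC.subst h h'

theorem UCF.id : UCF c fun w => w := UC.query

theorem UCF.param : UCF c fun _ => c := UC.cquery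

theorem UCF.const (h : TLe d c) : UCF c fun _ => d := UC.of_SI (tLe_iff_SI.1 h)

theorem UCF.join {G K : (ℕ → Bool) → ℕ → Bool} (h : UCF c G) (h' : UCF c K) :
    UCF c fun w => join (G w) (K w) := UC.join_graph h h'

theorem UCF.ev {G : (ℕ → Bool) → ℕ → Bool} (h : UCF c G) : UCF c fun w => ev (G w) :=
  UC.comp h (f := fun x : ℕ × Bool => (2 * x.1, x.2))
    ((Primrec.nat_mul.comp (Primrec.const 2) Primrec.fst).pair Primrec.snd)

theorem UCF.od {G : (ℕ → Bool) → ℕ → Bool} (h : UCF c G) : UCF c fun w => od (G w) :=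
  UC.comp h (f := fun x : ℕ × Bool => (2 * x.1 + 1, x.2))
    ((Primrec.succ.comp (Primrec.nat_mul.comp (Primrec.const 2) Primrec.fst)).pair Primrec.snd)

theorem UCF.mono {G : (ℕ → Bool) → ℕ → Bool} (h : UCF c G) (h' : TLe c d) : UCF d G :=
  UC.mono h h'

end Pool.Agent.H660.TM
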